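import Pool.Agent.H23.PS.Gen

/-!
# Boolean form of the finite facts
-/

set_option autoImplicit false
set_option linter.unusedVariables false
set_option linter.unusedTactic false
set_option linter.unreachableTactic false
set_option linter.unusedSimpArgs false
set_option linter.unusedSectionVars false
set_option linter.style.longLine false

namespace Pool.Agent.H23.PS
open Finset Pool.Agent.H160R2.HF Pool.Agent.H179R3.HF

variable {R : Type} [CommRing R]

/-- all numbers less than `n` -/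
def allB (n : ℕ) (f : ℕ → Bool) : Bool := (List.range n).all f

theorem allB_spec {n : ℕ} {f : ℕ → Bool} (h : allB n f = true) : ∀ i < n, f i = true := by
  intro i hi
  unfold allB at h
  rw [List.all_eq_true] at h
  exact h i (List.mem_range.2 hi)

theorem allB_of {n : ℕ} {f : ℕ → Bool} (h : ∀ i < n, f i = true) : allB n f = true := by
  unfold allB
  rw [List.all_eq_true]
  intro i hi
  exact h i (List.mem_range.1 hi)

/-- decoding of a table entry -/
def yv (n i : ℕ) : ℕ := (n / 32 ^ i) % 32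

/-- `r21 a b c`: the values of `a`, `b` have the sum `c`; `r30 a b c`: the values of `a`, `b`, `c`
have the sum zero -/
structure Rel (S : VS R) (r21 r30 : ℕ → ℕ → ℕ → Bool) : Prop where
  s21 : ∀ {a}, a < S.nc → ∀ {b}, b < S.nc → ∀ {c}, c < S.nc → r21 a b c = true →
    ∀ k < S.m, S.v a k + S.v b k = S.v c k
  s30 : ∀ {a}, a < S.nc → ∀ {b}, b < S.nc → ∀ {c}, c < S.nc → r30 a b c = true →
    ∀ k < S.m, S.v a k + S.v b k + S.v c k = 0
  c21 : ∀ {a}, a < S.nc → ∀ {b}, b < S.nc → ∀ {c}, c < S.nc →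
    (∀ k < S.m, S.v a k + S.v b k = S.v c k) → r21 a b c = true
  c30 : ∀ {a}, a < S.nc → ∀ {b}, b < S.nc → ∀ {c}, c < S.nc →
    (∀ k < S.m, S.v a k + S.v b k + S.v c k = 0) → r30 a b c = true

/-- the relations are functions: `sm a b` is the code of the sum, `th a b` the code of the
opposite of the sum, `ng a` the code of the opposite -/
structure Fn (S : VS R) (r21 r30 : ℕ → ℕ → ℕ → Bool) (sm th : ℕ → ℕ → ℕ) (ng : ℕ → ℕ) : Prop
    extends Rel S r21 r30 where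
  fs : ∀ {a}, a < S.nc → ∀ {b}, b < S.nc → ∀ {c}, c < S.nc → r21 a b c = true → sm a b = c
  ft : ∀ {a}, a < S.nc → ∀ {b}, b < S.nc → ∀ {c}, c < S.nc → r30 a b c = true → th a b = c
  fn : ∀ {a}, a < S.nc → ∀ {b}, b < S.nc → (∀ k < S.m, S.v a k + S.v b k = 0) → ng a = b
  fng : ∀ {a}, a < S.nc → ng a < S.nc ∧ ∀ k < S.m, S.v (ng a) k = - S.v a k

section
variable [DecidableEq R]

def zb (S : VS R) (p q : ℕ) : Bool := allB S.m fun k => decide (S.v p k + S.v q k = 0)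

def tb (S : VS R) (p q r : ℕ) : Bool := allB S.m fun k => decide (S.v p k + S.v q k + S.v r k = 0)

def sb (S : VS R) (p q w : ℕ) : Bool := allB S.m fun k => decide (S.v p k + S.v q k = S.v w k)

/-- Boolean form of `Fn` -/
def chkFn (S : VS R) (r21 r30 : ℕ → ℕ → ℕ → Bool) (sm th : ℕ → ℕ → ℕ) (ng : ℕ → ℕ) : Bool :=
  allB S.nc fun a => (decide (ng a < S.nc) && allB S.m fun k => decide (S.v (ng a) k = - S.v a k)) &&
    allB S.nc fun b => (!(zb S a b) || decide (ng a = b)) &&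
    allB S.nc fun c => ((r21 a b c == sb S a b c) && (r30 a b c == tb S a b c)) &&
      ((!(r21 a b c) || decide (sm a b = c)) && (!(r30 a b c) || decide (th a b = c)))

theorem imp_of {a b : Bool} (h : (!a || b) = true) (ha : a = true) : b = true := by
  rw [ha] at h
  simpa using h

theorem fn_of_chk {S : VS R} {r21 r30 : ℕ → ℕ → ℕ → Bool} {sm th : ℕ → ℕ → ℕ} {ng : ℕ → ℕ}
    (h : chkFn S r21 r30 sm th ng = true) : Fn S r21 r30 sm th ng := by
  have h1 : ∀ a < S.nc, (ng a < S.nc ∧ ∀ k < S.m, S.v (ng a) k = - S.v a k) ∧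
      ∀ b < S.nc, ((∀ k < S.m, S.v a k + S.v b k = 0) → ng a = b) ∧
      ∀ c < S.nc, (r21 a b c = sb S a b c ∧ r30 a b c = tb S a b c) ∧
        (r21 a b c = true → sm a b = c) ∧ (r30 a b c = true → th a b = c) := by
    intro a ha
    have h2 := allB_spec h a ha
    simp only [Bool.and_eq_true, decide_eq_true_eq] at h2
    refine ⟨⟨h2.1.1, fun k hk => of_decide_eq_true (allB_spec h2.1.2 k hk)⟩, fun b hb => ?_⟩
    have h3 := allB_spec h2.2 b hb
    simp only [Bool.and_eq_true] at h3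
    refine ⟨fun hz => of_decide_eq_true (imp_of h3.1 (allB_of fun k hk => decide_eq_true (hz k hk))),
      fun c hc => ?_⟩
    have h4 := allB_spec h3.2 c hc
    simp only [Bool.and_eq_true, beq_iff_eq] at h4
    exact ⟨h4.1, fun h => of_decide_eq_true (imp_of h4.2.1 h),
      fun h => of_decide_eq_true (imp_of h4.2.2 h)⟩
  exact {
    s21 := fun {a} ha {b} hb {c} hc h k hk => by
      have h2 := ((h1 a ha).2 b hb).2 c hc
      rw [h2.1.1] at h
      exact of_decide_eq_true (allB_spec h k hk)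
    s30 := fun {a} ha {b} hb {c} hc h k hk => by
      have h2 := ((h1 a ha).2 b hb).2 c hc
      rw [h2.1.2] at h
      exact of_decide_eq_true (allB_spec h k hk)
    c21 := fun {a} ha {b} hb {c} hc h => by
      have h2 := ((h1 a ha).2 b hb).2 c hc
      rw [h2.1.1]
      exact allB_of fun k hk => decide_eq_true (h k hk)
    c30 := fun {a} ha {b} hb {c} hc h => by
      have h2 := ((h1 a ha).2 b hb).2 c hc
      rw [h2.1.2]
      exact allB_of fun k hk => decide_eq_true (h k hk)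
    fs := fun {a} ha {b} hb {c} hc h => (((h1 a ha).2 b hb).2 c hc).2.1 h
    ft := fun {a} ha {b} hb {c} hc h => (((h1 a ha).2 b hb).2 c hc).2.2 h
    fn := fun {a} ha {b} hb h => ((h1 a ha).2 b hb).1 h
    fng := fun {a} ha => (h1 a ha).1 }

end

/-- the table entry `n` is a solution for the boundary values `zs` -/
def wit (nc I : ℕ) (eq : (ℕ → ℕ) → (ℕ → ℕ) → Bool) (zs : List ℕ) (n : ℕ) : Bool :=
  allB I (fun i => Nat.blt (yv n i) nc) && eq (fun d => zs.getD d 0) (fun i => yv n i)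

theorem ext_of_wit {S : VS R} {n I N : ℕ} {b : Fin n → Fin N} {t h : Fin I → Fin N}
    {eq : (ℕ → ℕ) → (ℕ → ℕ) → Bool}
    (heq : ∀ z y : ℕ → ℕ, (∀ d < n, z d < S.nc) → (∀ i < I, y i < S.nc) → eq z y = true →
      ∀ l < S.m, FitsR b t h (fun d => S.v (z d) l) (fun i => S.v (y i) l))
    (z : Fin n → ℕ) (hok : ∀ d, z d < S.nc) (zs : List ℕ) (hz : ∀ d : Fin n, zs.getD d 0 = z d)
    (e : ℕ) (hw : wit S.nc I eq zs e = true) : ExtTo S b t h z := by
  unfold wit at hw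
  rw [Bool.and_eq_true] at hw
  have hy : ∀ i < I, yv e i < S.nc := fun i hi => by
    have := allB_spec hw.1 i hi
    simpa [Nat.blt] using this
  refine ⟨fun i => yv e i, fun i => hy i i.2, fun l hl => ?_⟩
  have := heq (fun d => zs.getD d 0) _ (fun d hd => by
    have := hz ⟨d, hd⟩
    simp only at this ⊢
    rw [this]
    exact hok _) hy hw.2 l hl
  simp only [hz] at this
  exact this

/-- the conservation equations of the fragment `E`, for codes -/
def eqE (r21 r30 : ℕ → ℕ → ℕ → Bool) (z y : ℕ → ℕ) : Bool :=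
  (r21 (z 0) (y 11) (y 0) &&
  (r21 (y 2) (y 3) (z 1) &&
  (r21 (y 5) (y 6) (y 2) &&
  (r21 (y 8) (y 9) (y 5) &&
  (r21 (y 11) (y 12) (y 8) &&
  (r21 (y 0) (y 10) (y 1) &&
  (r21 (y 3) (y 13) (y 4) &&
  (r21 (y 1) (y 6) (y 7) &&
  (r21 (y 4) (y 9) (y 10) &&
  r21 (y 7) (y 12) (y 13))))))))))

theorem fitsE_of {S : VS R} {r21 r30 : ℕ → ℕ → ℕ → Bool} (hr : Rel S r21 r30) (z y : ℕ → ℕ)
    (hz : ∀ d < 2, z d < S.nc) (hy : ∀ i < 14, y i < S.nc) (h : eqE r21 r30 z y = true) (l : ℕ) (hl : l < S.m) :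
    FitsR bE tE hE (fun d => S.v (z d) l) (fun i => S.v (y i) l) := by
  simp only [eqE, Bool.and_eq_true] at h
  obtain ⟨e0, e1, e2, e3, e4, e5, e6, e7, e8, e9⟩ := h
  exact fitsE (fun d => S.v (z d) l) (fun i => S.v (y i) l)
    (hr.s21 (hz 0 (by norm_num)) (hy 11 (by norm_num)) (hy 0 (by norm_num)) e0 l hl).symm
    (hr.s21 (hy 2 (by norm_num)) (hy 3 (by norm_num)) (hz 1 (by norm_num)) e1 l hl)
    (hr.s21 (hy 5 (by norm_num)) (hy 6 (by norm_num)) (hy 2 (by norm_num)) e2 l hl)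
    (hr.s21 (hy 8 (by norm_num)) (hy 9 (by norm_num)) (hy 5 (by norm_num)) e3 l hl)
    (hr.s21 (hy 11 (by norm_num)) (hy 12 (by norm_num)) (hy 8 (by norm_num)) e4 l hl)
    (hr.s21 (hy 0 (by norm_num)) (hy 10 (by norm_num)) (hy 1 (by norm_num)) e5 l hl).symm
    (hr.s21 (hy 3 (by norm_num)) (hy 13 (by norm_num)) (hy 4 (by norm_num)) e6 l hl).symm
    (hr.s21 (hy 1 (by norm_num)) (hy 6 (by norm_num)) (hy 7 (by norm_num)) e7 l hl).symm
    (hr.s21 (hy 4 (by norm_num)) (hy 9 (by norm_num)) (hy 10 (by norm_num)) e8 l hl).symm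
    (hr.s21 (hy 7 (by norm_num)) (hy 12 (by norm_num)) (hy 13 (by norm_num)) e9 l hl).symm

/-- the conservation equations of the fragment `V`, for codes -/
def eqV (r21 r30 : ℕ → ℕ → ℕ → Bool) (z y : ℕ → ℕ) : Bool :=
  (r21 (y 1) (y 2) (z 0) &&
  (r21 (y 4) (y 5) (y 1) &&
  (r21 (y 7) (y 8) (y 4) &&
  (r21 (z 1) (y 7) (y 10) &&
  (r21 (z 2) (y 9) (y 0) &&
  (r21 (y 2) (y 11) (y 3) &&
  (r21 (y 0) (y 5) (y 6) &&
  (r21 (y 3) (y 8) (y 9) &&
  r21 (y 6) (y 10) (y 11)))))))))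

theorem fitsV_of {S : VS R} {r21 r30 : ℕ → ℕ → ℕ → Bool} (hr : Rel S r21 r30) (z y : ℕ → ℕ)
    (hz : ∀ d < 3, z d < S.nc) (hy : ∀ i < 12, y i < S.nc) (h : eqV r21 r30 z y = true) (l : ℕ) (hl : l < S.m) :
    FitsR bV tV hV (fun d => S.v (z d) l) (fun i => S.v (y i) l) := by
  simp only [eqV, Bool.and_eq_true] at h
  obtain ⟨e0, e1, e2, e3, e4, e5, e6, e7, e8⟩ := h
  exact fitsV (fun d => S.v (z d) l) (fun i => S.v (y i) l)
    (hr.s21 (hy 1 (by norm_num)) (hy 2 (by norm_num)) (hz 0 (by norm_num)) e0 l hl)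
    (hr.s21 (hy 4 (by norm_num)) (hy 5 (by norm_num)) (hy 1 (by norm_num)) e1 l hl)
    (hr.s21 (hy 7 (by norm_num)) (hy 8 (by norm_num)) (hy 4 (by norm_num)) e2 l hl)
    (hr.s21 (hz 1 (by norm_num)) (hy 7 (by norm_num)) (hy 10 (by norm_num)) e3 l hl).symm
    (hr.s21 (hz 2 (by norm_num)) (hy 9 (by norm_num)) (hy 0 (by norm_num)) e4 l hl).symm
    (hr.s21 (hy 2 (by norm_num)) (hy 11 (by norm_num)) (hy 3 (by norm_num)) e5 l hl).symm
    (hr.s21 (hy 0 (by norm_num)) (hy 5 (by norm_num)) (hy 6 (by norm_num)) e6 l hl).symm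
    (hr.s21 (hy 3 (by norm_num)) (hy 8 (by norm_num)) (hy 9 (by norm_num)) e7 l hl).symm
    (hr.s21 (hy 6 (by norm_num)) (hy 10 (by norm_num)) (hy 11 (by norm_num)) e8 l hl).symm

/-- the conservation equations of the fragment `D`, for codes -/
def eqD (r21 r30 : ℕ → ℕ → ℕ → Bool) (z y : ℕ → ℕ) : Bool :=
  (r21 (y 2) (y 3) (z 2) &&
  (r21 (y 5) (y 6) (y 2) &&
  (r21 (z 0) (y 5) (y 8) &&
  (r21 (z 1) (y 7) (y 0) &&
  (r21 (z 3) (y 9) (y 1) &&
  (r21 (y 0) (y 3) (y 4) &&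
  (r21 (y 1) (y 6) (y 7) &&
  r21 (y 4) (y 8) (y 9))))))))

theorem fitsD_of {S : VS R} {r21 r30 : ℕ → ℕ → ℕ → Bool} (hr : Rel S r21 r30) (z y : ℕ → ℕ)
    (hz : ∀ d < 4, z d < S.nc) (hy : ∀ i < 10, y i < S.nc) (h : eqD r21 r30 z y = true) (l : ℕ) (hl : l < S.m) :
    FitsR bD tD hD (fun d => S.v (z d) l) (fun i => S.v (y i) l) := by
  simp only [eqD, Bool.and_eq_true] at h
  obtain ⟨e0, e1, e2, e3, e4, e5, e6, e7⟩ := h
  exact fitsD (fun d => S.v (z d) l) (fun i => S.v (y i) l)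
    (hr.s21 (hy 2 (by norm_num)) (hy 3 (by norm_num)) (hz 2 (by norm_num)) e0 l hl)
    (hr.s21 (hy 5 (by norm_num)) (hy 6 (by norm_num)) (hy 2 (by norm_num)) e1 l hl)
    (hr.s21 (hz 0 (by norm_num)) (hy 5 (by norm_num)) (hy 8 (by norm_num)) e2 l hl).symm
    (hr.s21 (hz 1 (by norm_num)) (hy 7 (by norm_num)) (hy 0 (by norm_num)) e3 l hl).symm
    (hr.s21 (hz 3 (by norm_num)) (hy 9 (by norm_num)) (hy 1 (by norm_num)) e4 l hl).symm
    (hr.s21 (hy 0 (by norm_num)) (hy 3 (by norm_num)) (hy 4 (by norm_num)) e5 l hl).symm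
    (hr.s21 (hy 1 (by norm_num)) (hy 6 (by norm_num)) (hy 7 (by norm_num)) e6 l hl).symm
    (hr.s21 (hy 4 (by norm_num)) (hy 8 (by norm_num)) (hy 9 (by norm_num)) e7 l hl).symm

/-- the conservation equations of the fragment `H`, for codes -/
def eqH (r21 r30 : ℕ → ℕ → ℕ → Bool) (z y : ℕ → ℕ) : Bool :=
  (r21 (z 0) (y 10) (y 0) &&
  (r21 (y 2) (y 3) (z 1) &&
  (r21 (z 2) (y 2) (y 5) &&
  (r21 (y 7) (y 8) (z 3) &&
  (r21 (y 10) (y 11) (y 7) &&
  (r21 (y 0) (y 9) (y 1) &&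
  (r21 (y 3) (y 12) (y 4) &&
  (r21 (y 1) (y 5) (y 6) &&
  (r21 (y 4) (y 8) (y 9) &&
  r21 (y 6) (y 11) (y 12))))))))))

theorem fitsH_of {S : VS R} {r21 r30 : ℕ → ℕ → ℕ → Bool} (hr : Rel S r21 r30) (z y : ℕ → ℕ)
    (hz : ∀ d < 4, z d < S.nc) (hy : ∀ i < 13, y i < S.nc) (h : eqH r21 r30 z y = true) (l : ℕ) (hl : l < S.m) :
    FitsR bH tH hH (fun d => S.v (z d) l) (fun i => S.v (y i) l) := by
  simp only [eqH, Bool.and_eq_true] at h
  obtain ⟨e0, e1, e2, e3, e4, e5, e6, e7, e8, e9⟩ := h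
  exact fitsH (fun d => S.v (z d) l) (fun i => S.v (y i) l)
    (hr.s21 (hz 0 (by norm_num)) (hy 10 (by norm_num)) (hy 0 (by norm_num)) e0 l hl).symm
    (hr.s21 (hy 2 (by norm_num)) (hy 3 (by norm_num)) (hz 1 (by norm_num)) e1 l hl)
    (hr.s21 (hz 2 (by norm_num)) (hy 2 (by norm_num)) (hy 5 (by norm_num)) e2 l hl).symm
    (hr.s21 (hy 7 (by norm_num)) (hy 8 (by norm_num)) (hz 3 (by norm_num)) e3 l hl)
    (hr.s21 (hy 10 (by norm_num)) (hy 11 (by norm_num)) (hy 7 (by norm_num)) e4 l hl)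
    (hr.s21 (hy 0 (by norm_num)) (hy 9 (by norm_num)) (hy 1 (by norm_num)) e5 l hl).symm
    (hr.s21 (hy 3 (by norm_num)) (hy 12 (by norm_num)) (hy 4 (by norm_num)) e6 l hl).symm
    (hr.s21 (hy 1 (by norm_num)) (hy 5 (by norm_num)) (hy 6 (by norm_num)) e7 l hl).symm
    (hr.s21 (hy 4 (by norm_num)) (hy 8 (by norm_num)) (hy 9 (by norm_num)) e8 l hl).symm
    (hr.s21 (hy 6 (by norm_num)) (hy 11 (by norm_num)) (hy 12 (by norm_num)) e9 l hl).symm

/-- the conservation equations of the fragment `J`, for codes -/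
def eqJ (r21 r30 : ℕ → ℕ → ℕ → Bool) (z y : ℕ → ℕ) : Bool :=
  (r21 (z 0) (y 10) (y 0) &&
  (r21 (y 2) (y 3) (z 1) &&
  (r21 (y 5) (y 6) (y 2) &&
  (r21 (y 7) (y 8) (y 5) &&
  (r21 (y 10) (y 11) (y 7) &&
  (r21 (y 0) (y 9) (y 1) &&
  (r21 (y 3) (y 12) (y 4) &&
  (r30 (z 2) (y 1) (y 6) &&
  (r21 (y 4) (y 8) (y 9) &&
  r21 (z 3) (y 11) (y 12))))))))))

theorem fitsJ_of {S : VS R} {r21 r30 : ℕ → ℕ → ℕ → Bool} (hr : Rel S r21 r30) (z y : ℕ → ℕ)
    (hz : ∀ d < 4, z d < S.nc) (hy : ∀ i < 13, y i < S.nc) (h : eqJ r21 r30 z y = true) (l : ℕ) (hl : l < S.m) :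
    FitsR bJ tJ hJ (fun d => S.v (z d) l) (fun i => S.v (y i) l) := by
  simp only [eqJ, Bool.and_eq_true] at h
  obtain ⟨e0, e1, e2, e3, e4, e5, e6, e7, e8, e9⟩ := h
  exact fitsJ (fun d => S.v (z d) l) (fun i => S.v (y i) l)
    (hr.s21 (hz 0 (by norm_num)) (hy 10 (by norm_num)) (hy 0 (by norm_num)) e0 l hl).symm
    (hr.s21 (hy 2 (by norm_num)) (hy 3 (by norm_num)) (hz 1 (by norm_num)) e1 l hl)
    (hr.s21 (hy 5 (by norm_num)) (hy 6 (by norm_num)) (hy 2 (by norm_num)) e2 l hl)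
    (hr.s21 (hy 7 (by norm_num)) (hy 8 (by norm_num)) (hy 5 (by norm_num)) e3 l hl)
    (hr.s21 (hy 10 (by norm_num)) (hy 11 (by norm_num)) (hy 7 (by norm_num)) e4 l hl)
    (hr.s21 (hy 0 (by norm_num)) (hy 9 (by norm_num)) (hy 1 (by norm_num)) e5 l hl).symm
    (hr.s21 (hy 3 (by norm_num)) (hy 12 (by norm_num)) (hy 4 (by norm_num)) e6 l hl).symm
    (hr.s30 (hz 2 (by norm_num)) (hy 1 (by norm_num)) (hy 6 (by norm_num)) e7 l hl).symm
    (hr.s21 (hy 4 (by norm_num)) (hy 8 (by norm_num)) (hy 9 (by norm_num)) e8 l hl).symm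
    (hr.s21 (hz 3 (by norm_num)) (hy 11 (by norm_num)) (hy 12 (by norm_num)) e9 l hl).symm


variable (S : VS R) (r21 r30 : ℕ → ℕ → ℕ → Bool) (sm th : ℕ → ℕ → ℕ) (ng : ℕ → ℕ)

def chkE (nc : ℕ) (tab : List ℕ) : Bool :=
  allB nc fun p => wit nc 14 (eqE r21 r30) [p, ng p] (tab.getD p 0)

def chkV (nc : ℕ) (tab : List (List ℕ)) : Bool :=
  allB nc fun p => allB nc fun q => !(Nat.blt (th p q) nc) ||
    wit nc 12 (eqV r21 r30) [p, q, th p q] ((tab.getD p []).getD q 0)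

def chkD (nc : ℕ) (tab : List (List ℕ)) : Bool :=
  allB nc fun p => allB nc fun r =>
    wit nc 10 (eqD r21 r30) [p, ng p, r, ng r] ((tab.getD p []).getD r 0)

/-- the part of the check with first values `p`, `q` -/
def chkHp (nc : ℕ) (eq : (ℕ → ℕ) → (ℕ → ℕ) → Bool) (tab : List ℕ) (p q w : ℕ) : Bool :=
  allB nc fun r => !(Nat.blt (th w r) nc) || wit nc 13 eq [p, q, r, th w r] (tab.getD r 0)

def chkH (nc : ℕ) (eq : (ℕ → ℕ) → (ℕ → ℕ) → Bool) (tab : List (List (List ℕ))) : Bool :=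
  allB nc fun p => allB nc fun q => !(Nat.blt (sm p q) nc) ||
    chkHp th nc eq ((tab.getD p []).getD q []) p q (sm p q)

theorem blt_of {a b : ℕ} (h : a < b) : Nat.blt a b = true := by simpa [Nat.blt] using h

variable {S r21 r30 sm th ng}

theorem ext_of_chk (hF : Fn S r21 r30 sm th ng) {tE' : List ℕ} {tV' tD' : List (List ℕ)}
    {tH' tJ' : List (List (List ℕ))} (hE' : chkE r21 r30 ng S.nc tE' = true)
    (hV' : chkV r21 r30 th S.nc tV' = true) (hD' : chkD r21 r30 ng S.nc tD' = true)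
    (hH' : chkH sm th S.nc (eqH r21 r30) tH' = true)
    (hJ' : chkH sm th S.nc (eqJ r21 r30) tJ' = true) : Ext S where
  ng := by
    intro p hp
    exact ⟨ng p, (hF.fng hp).1, (hF.fng hp).2⟩
  E := by
    intro z hz h
    have h1 := allB_spec hE' _ (hz 0)
    have h2 := hF.fn (hz 0) (hz 1) h
    exact ext_of_wit (fitsE_of hF.toRel) z hz _ (by intro d; fin_cases d <;> simp [h2]) _ h1
  V := by
    intro z hz h
    have h1 := hF.ft (hz 0) (hz 1) (hz 2) (hF.c30 (hz 0) (hz 1) (hz 2) h)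
    have h2 := imp_of (allB_spec (allB_spec hV' _ (hz 0)) _ (hz 1)) (blt_of (by rw [h1]; exact hz 2))
    exact ext_of_wit (fitsV_of hF.toRel) z hz _ (by intro d; fin_cases d <;> simp [h1]) _ h2
  D := by
    intro z hz h h'
    have h1 := hF.fn (hz 0) (hz 1) h
    have h2 := hF.fn (hz 2) (hz 3) h'
    have h3 := allB_spec (allB_spec hD' _ (hz 0)) _ (hz 2)
    exact ext_of_wit (fitsD_of hF.toRel) z hz _ (by intro d; fin_cases d <;> simp [h1, h2]) _ h3
  H := by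
    intro z hz w hw h h'
    have h1 := hF.fs (hz 0) (hz 1) hw (hF.c21 (hz 0) (hz 1) hw h)
    have h2 := hF.ft hw (hz 2) (hz 3) (hF.c30 hw (hz 2) (hz 3) h')
    constructor
    · have h3 := imp_of (allB_spec (allB_spec hH' _ (hz 0)) _ (hz 1))
        (blt_of (by rw [h1]; exact hw))
      rw [h1] at h3
      have h4 := imp_of (allB_spec h3 _ (hz 2)) (blt_of (by rw [h2]; exact hz 3))
      exact ext_of_wit (fitsH_of hF.toRel) z hz _ (by intro d; fin_cases d <;> simp [h2]) _ h4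
    · have h3 := imp_of (allB_spec (allB_spec hJ' _ (hz 0)) _ (hz 1))
        (blt_of (by rw [h1]; exact hw))
      rw [h1] at h3
      have h4 := imp_of (allB_spec h3 _ (hz 2)) (blt_of (by rw [h2]; exact hz 3))
      exact ext_of_wit (fitsJ_of hF.toRel) z hz _ (by intro d; fin_cases d <;> simp [h2]) _ h4

end Pool.Agent.H23.PS
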