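import Pool.Agent.H179R3.HF.SumDefs

/-!
# Fragments of the Petersen graph: conservation of flows with values in a commutative ring
-/

set_option autoImplicit false
set_option linter.unusedVariables false
set_option linter.unusedTactic false
set_option linter.unreachableTactic false
set_option linter.unusedSimpArgs false
set_option linter.unusedSectionVars false
set_option linter.style.longLine false

namespace Pool.Agent.H23.PS
open Finset Pool.Agent.H160R2.HF Pool.Agent.H179R3.HF

/-- conservation at the vertices of the inner part -/
def FitsR {R : Type} [AddCommMonoid R] {N D I : Type*} [Fintype D] [Fintype I] [DecidableEq N]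
    (b : D → N) (t₁ h₁ : I → N) (z : D → R) (y : I → R) : Prop :=
  ∀ n, ∑ i with t₁ i = n, y i = (∑ d with b d = n, z d) + ∑ i with h₁ i = n, y i

variable {R : Type} [CommRing R]

theorem fitsE (z : Fin 2 → R) (y : Fin 14 → R)
    (e0 : y 0 = z 0 + y 11)
    (e1 : y 2 + y 3 = z 1)
    (e2 : y 5 + y 6 = y 2)
    (e3 : y 8 + y 9 = y 5)
    (e4 : y 11 + y 12 = y 8)
    (e5 : y 1 = y 0 + y 10)
    (e6 : y 4 = y 3 + y 13)
    (e7 : y 7 = y 1 + y 6)
    (e8 : y 10 = y 4 + y 9)
    (e9 : y 13 = y 7 + y 12)
    : FitsR bE tE hE z y := by
  intro v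
  rw [Finset.sum_filter, Finset.sum_filter, Finset.sum_filter]
  fin_cases v
  · simp [Fin.sum_univ_succ, tE, hE, bE]
    first | linear_combination e0 | linear_combination -e0
  · simp [Fin.sum_univ_succ, tE, hE, bE]
    first | linear_combination e1 | linear_combination -e1
  · simp [Fin.sum_univ_succ, tE, hE, bE]
    first | linear_combination e2 | linear_combination -e2
  · simp [Fin.sum_univ_succ, tE, hE, bE]
    first | linear_combination e3 | linear_combination -e3
  · simp [Fin.sum_univ_succ, tE, hE, bE]
    first | linear_combination e4 | linear_combination -e4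
  · simp [Fin.sum_univ_succ, tE, hE, bE]
    first | linear_combination e5 | linear_combination -e5
  · simp [Fin.sum_univ_succ, tE, hE, bE]
    first | linear_combination e6 | linear_combination -e6
  · simp [Fin.sum_univ_succ, tE, hE, bE]
    first | linear_combination e7 | linear_combination -e7
  · simp [Fin.sum_univ_succ, tE, hE, bE]
    first | linear_combination e8 | linear_combination -e8
  · simp [Fin.sum_univ_succ, tE, hE, bE]
    first | linear_combination e9 | linear_combination -e9

theorem fitsV (z : Fin 3 → R) (y : Fin 12 → R)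
    (e0 : y 1 + y 2 = z 0)
    (e1 : y 4 + y 5 = y 1)
    (e2 : y 7 + y 8 = y 4)
    (e3 : y 10 = z 1 + y 7)
    (e4 : y 0 = z 2 + y 9)
    (e5 : y 3 = y 2 + y 11)
    (e6 : y 6 = y 0 + y 5)
    (e7 : y 9 = y 3 + y 8)
    (e8 : y 11 = y 6 + y 10)
    : FitsR bV tV hV z y := by
  intro v
  rw [Finset.sum_filter, Finset.sum_filter, Finset.sum_filter]
  fin_cases v
  · simp [Fin.sum_univ_succ, tV, hV, bV]
    first | linear_combination e0 | linear_combination -e0
  · simp [Fin.sum_univ_succ, tV, hV, bV]
    first | linear_combination e1 | linear_combination -e1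
  · simp [Fin.sum_univ_succ, tV, hV, bV]
    first | linear_combination e2 | linear_combination -e2
  · simp [Fin.sum_univ_succ, tV, hV, bV]
    first | linear_combination e3 | linear_combination -e3
  · simp [Fin.sum_univ_succ, tV, hV, bV]
    first | linear_combination e4 | linear_combination -e4
  · simp [Fin.sum_univ_succ, tV, hV, bV]
    first | linear_combination e5 | linear_combination -e5
  · simp [Fin.sum_univ_succ, tV, hV, bV]
    first | linear_combination e6 | linear_combination -e6
  · simp [Fin.sum_univ_succ, tV, hV, bV]
    first | linear_combination e7 | linear_combination -e7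
  · simp [Fin.sum_univ_succ, tV, hV, bV]
    first | linear_combination e8 | linear_combination -e8

theorem fitsD (z : Fin 4 → R) (y : Fin 10 → R)
    (e0 : y 2 + y 3 = z 2)
    (e1 : y 5 + y 6 = y 2)
    (e2 : y 8 = z 0 + y 5)
    (e3 : y 0 = z 1 + y 7)
    (e4 : y 1 = z 3 + y 9)
    (e5 : y 4 = y 0 + y 3)
    (e6 : y 7 = y 1 + y 6)
    (e7 : y 9 = y 4 + y 8)
    : FitsR bD tD hD z y := by
  intro v
  rw [Finset.sum_filter, Finset.sum_filter, Finset.sum_filter]
  fin_cases v
  · simp [Fin.sum_univ_succ, tD, hD, bD]
    first | linear_combination e0 | linear_combination -e0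
  · simp [Fin.sum_univ_succ, tD, hD, bD]
    first | linear_combination e1 | linear_combination -e1
  · simp [Fin.sum_univ_succ, tD, hD, bD]
    first | linear_combination e2 | linear_combination -e2
  · simp [Fin.sum_univ_succ, tD, hD, bD]
    first | linear_combination e3 | linear_combination -e3
  · simp [Fin.sum_univ_succ, tD, hD, bD]
    first | linear_combination e4 | linear_combination -e4
  · simp [Fin.sum_univ_succ, tD, hD, bD]
    first | linear_combination e5 | linear_combination -e5
  · simp [Fin.sum_univ_succ, tD, hD, bD]
    first | linear_combination e6 | linear_combination -e6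
  · simp [Fin.sum_univ_succ, tD, hD, bD]
    first | linear_combination e7 | linear_combination -e7

theorem fitsH (z : Fin 4 → R) (y : Fin 13 → R)
    (e0 : y 0 = z 0 + y 10)
    (e1 : y 2 + y 3 = z 1)
    (e2 : y 5 = z 2 + y 2)
    (e3 : y 7 + y 8 = z 3)
    (e4 : y 10 + y 11 = y 7)
    (e5 : y 1 = y 0 + y 9)
    (e6 : y 4 = y 3 + y 12)
    (e7 : y 6 = y 1 + y 5)
    (e8 : y 9 = y 4 + y 8)
    (e9 : y 12 = y 6 + y 11)
    : FitsR bH tH hH z y := by
  intro v
  rw [Finset.sum_filter, Finset.sum_filter, Finset.sum_filter]
  fin_cases v
  · simp [Fin.sum_univ_succ, tH, hH, bH]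
    first | linear_combination e0 | linear_combination -e0
  · simp [Fin.sum_univ_succ, tH, hH, bH]
    first | linear_combination e1 | linear_combination -e1
  · simp [Fin.sum_univ_succ, tH, hH, bH]
    first | linear_combination e2 | linear_combination -e2
  · simp [Fin.sum_univ_succ, tH, hH, bH]
    first | linear_combination e3 | linear_combination -e3
  · simp [Fin.sum_univ_succ, tH, hH, bH]
    first | linear_combination e4 | linear_combination -e4
  · simp [Fin.sum_univ_succ, tH, hH, bH]
    first | linear_combination e5 | linear_combination -e5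
  · simp [Fin.sum_univ_succ, tH, hH, bH]
    first | linear_combination e6 | linear_combination -e6
  · simp [Fin.sum_univ_succ, tH, hH, bH]
    first | linear_combination e7 | linear_combination -e7
  · simp [Fin.sum_univ_succ, tH, hH, bH]
    first | linear_combination e8 | linear_combination -e8
  · simp [Fin.sum_univ_succ, tH, hH, bH]
    first | linear_combination e9 | linear_combination -e9

theorem fitsJ (z : Fin 4 → R) (y : Fin 13 → R)
    (e0 : y 0 = z 0 + y 10)
    (e1 : y 2 + y 3 = z 1)
    (e2 : y 5 + y 6 = y 2)
    (e3 : y 7 + y 8 = y 5)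
    (e4 : y 10 + y 11 = y 7)
    (e5 : y 1 = y 0 + y 9)
    (e6 : y 4 = y 3 + y 12)
    (e7 : 0 = z 2 + y 1 + y 6)
    (e8 : y 9 = y 4 + y 8)
    (e9 : y 12 = z 3 + y 11)
    : FitsR bJ tJ hJ z y := by
  intro v
  rw [Finset.sum_filter, Finset.sum_filter, Finset.sum_filter]
  fin_cases v
  · simp [Fin.sum_univ_succ, tJ, hJ, bJ]
    first | linear_combination e0 | linear_combination -e0
  · simp [Fin.sum_univ_succ, tJ, hJ, bJ]
    first | linear_combination e1 | linear_combination -e1
  · simp [Fin.sum_univ_succ, tJ, hJ, bJ]
    first | linear_combination e2 | linear_combination -e2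
  · simp [Fin.sum_univ_succ, tJ, hJ, bJ]
    first | linear_combination e3 | linear_combination -e3
  · simp [Fin.sum_univ_succ, tJ, hJ, bJ]
    first | linear_combination e4 | linear_combination -e4
  · simp [Fin.sum_univ_succ, tJ, hJ, bJ]
    first | linear_combination e5 | linear_combination -e5
  · simp [Fin.sum_univ_succ, tJ, hJ, bJ]
    first | linear_combination e6 | linear_combination -e6
  · simp [Fin.sum_univ_succ, tJ, hJ, bJ]
    first | linear_combination e7 | linear_combination -e7
  · simp [Fin.sum_univ_succ, tJ, hJ, bJ]
    first | linear_combination e8 | linear_combination -e8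
  · simp [Fin.sum_univ_succ, tJ, hJ, bJ]
    first | linear_combination e9 | linear_combination -e9

end Pool.Agent.H23.PS
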