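import Pool.Agent.H23.PS.Chk

/-!
# Fragments of the Petersen graph with five connecting edges
-/

set_option autoImplicit false
set_option linter.unusedVariables false
set_option linter.unusedTactic false
set_option linter.unreachableTactic false
set_option linter.unusedSimpArgs false
set_option linter.unusedSectionVars false
set_option linter.style.longLine false

namespace Pool.Agent.H23.PS
open Finset Pool.Agent.H160R2.HF Pool.Agent.H179R3.HF

variable {R : Type} [CommRing R]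

/-- tails of the edges of the fragment `K`: `P` minus the vertices `0, 1, 2` (the vertex `i + 3` of `P` is called `i`); the first three connecting edges are attached at `3, 6, 7`, the last two at `4, 5` -/
def tK : Fin 8 → Fin 7 := ![0, 0, 1, 2, 4, 6, 3, 5]

/-- heads of the edges of the fragment `K` -/
def hK : Fin 8 → Fin 7 := ![1, 5, 6, 4, 6, 3, 5, 2]

/-- attachment vertices of the connecting edges of the fragment `K` -/
def bK : Fin 5 → Fin 7 := ![0, 3, 4, 1, 2]

theorem fitsK (z : Fin 5 → R) (y : Fin 8 → R)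
    (e0 : y 0 + y 1 = z 0)
    (e1 : y 2 = z 3 + y 0)
    (e2 : y 3 = z 4 + y 7)
    (e3 : y 6 = z 1 + y 5)
    (e4 : y 4 = z 2 + y 3)
    (e5 : y 7 = y 1 + y 6)
    (e6 : y 5 = y 2 + y 4)
    : FitsR bK tK hK z y := by
  intro v
  rw [Finset.sum_filter, Finset.sum_filter, Finset.sum_filter]
  fin_cases v
  · simp [Fin.sum_univ_succ, tK, hK, bK]
    first | linear_combination e0 | linear_combination -e0
  · simp [Fin.sum_univ_succ, tK, hK, bK]
    first | linear_combination e1 | linear_combination -e1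
  · simp [Fin.sum_univ_succ, tK, hK, bK]
    first | linear_combination e2 | linear_combination -e2
  · simp [Fin.sum_univ_succ, tK, hK, bK]
    first | linear_combination e3 | linear_combination -e3
  · simp [Fin.sum_univ_succ, tK, hK, bK]
    first | linear_combination e4 | linear_combination -e4
  · simp [Fin.sum_univ_succ, tK, hK, bK]
    first | linear_combination e5 | linear_combination -e5
  · simp [Fin.sum_univ_succ, tK, hK, bK]
    first | linear_combination e6 | linear_combination -e6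

/-- the conservation equations of the fragment `K`, for codes -/
def eqK (r21 r30 : ℕ → ℕ → ℕ → Bool) (z y : ℕ → ℕ) : Bool :=
  (r21 (y 0) (y 1) (z 0) &&
  (r21 (z 3) (y 0) (y 2) &&
  (r21 (z 4) (y 7) (y 3) &&
  (r21 (z 1) (y 5) (y 6) &&
  (r21 (z 2) (y 3) (y 4) &&
  (r21 (y 1) (y 6) (y 7) &&
  r21 (y 2) (y 4) (y 5)))))))

theorem fitsK_of {S : VS R} {r21 r30 : ℕ → ℕ → ℕ → Bool} (hr : Rel S r21 r30) (z y : ℕ → ℕ)
    (hz : ∀ d < 5, z d < S.nc) (hy : ∀ i < 8, y i < S.nc) (h : eqK r21 r30 z y = true) (l : ℕ) (hl : l < S.m) :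
    FitsR bK tK hK (fun d => S.v (z d) l) (fun i => S.v (y i) l) := by
  simp only [eqK, Bool.and_eq_true] at h
  obtain ⟨e0, e1, e2, e3, e4, e5, e6⟩ := h
  exact fitsK (fun d => S.v (z d) l) (fun i => S.v (y i) l)
    (hr.s21 (hy 0 (by norm_num)) (hy 1 (by norm_num)) (hz 0 (by norm_num)) e0 l hl)
    (hr.s21 (hz 3 (by norm_num)) (hy 0 (by norm_num)) (hy 2 (by norm_num)) e1 l hl).symm
    (hr.s21 (hz 4 (by norm_num)) (hy 7 (by norm_num)) (hy 3 (by norm_num)) e2 l hl).symm
    (hr.s21 (hz 1 (by norm_num)) (hy 5 (by norm_num)) (hy 6 (by norm_num)) e3 l hl).symm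
    (hr.s21 (hz 2 (by norm_num)) (hy 3 (by norm_num)) (hy 4 (by norm_num)) e4 l hl).symm
    (hr.s21 (hy 1 (by norm_num)) (hy 6 (by norm_num)) (hy 7 (by norm_num)) e5 l hl).symm
    (hr.s21 (hy 2 (by norm_num)) (hy 4 (by norm_num)) (hy 5 (by norm_num)) e6 l hl).symm

/-- tails of the edges of the fragment `L`: `P` minus the vertex `0` and the edge `23` (the vertex `i + 1` of `P` is called `i`); the first three connecting edges are attached at `1, 2, 3`, the last two at `4, 5` -/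
def tL : Fin 11 → Fin 9 := ![0, 2, 0, 1, 2, 3, 4, 6, 8, 5, 7]

/-- heads of the edges of the fragment `L` -/
def hL : Fin 11 → Fin 9 := ![1, 3, 5, 6, 7, 8, 6, 8, 5, 7, 4]

/-- attachment vertices of the connecting edges of the fragment `L` -/
def bL : Fin 5 → Fin 9 := ![0, 1, 2, 3, 4]

theorem fitsL (z : Fin 5 → R) (y : Fin 11 → R)
    (e0 : y 0 + y 2 = z 0)
    (e1 : y 3 = z 1 + y 0)
    (e2 : y 1 + y 4 = z 2)
    (e3 : y 5 = z 3 + y 1)
    (e4 : y 6 = z 4 + y 10)
    (e5 : y 9 = y 2 + y 8)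
    (e6 : y 7 = y 3 + y 6)
    (e7 : y 10 = y 4 + y 9)
    (e8 : y 8 = y 5 + y 7)
    : FitsR bL tL hL z y := by
  intro v
  rw [Finset.sum_filter, Finset.sum_filter, Finset.sum_filter]
  fin_cases v
  · simp [Fin.sum_univ_succ, tL, hL, bL]
    first | linear_combination e0 | linear_combination -e0
  · simp [Fin.sum_univ_succ, tL, hL, bL]
    first | linear_combination e1 | linear_combination -e1
  · simp [Fin.sum_univ_succ, tL, hL, bL]
    first | linear_combination e2 | linear_combination -e2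
  · simp [Fin.sum_univ_succ, tL, hL, bL]
    first | linear_combination e3 | linear_combination -e3
  · simp [Fin.sum_univ_succ, tL, hL, bL]
    first | linear_combination e4 | linear_combination -e4
  · simp [Fin.sum_univ_succ, tL, hL, bL]
    first | linear_combination e5 | linear_combination -e5
  · simp [Fin.sum_univ_succ, tL, hL, bL]
    first | linear_combination e6 | linear_combination -e6
  · simp [Fin.sum_univ_succ, tL, hL, bL]
    first | linear_combination e7 | linear_combination -e7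
  · simp [Fin.sum_univ_succ, tL, hL, bL]
    first | linear_combination e8 | linear_combination -e8

/-- the conservation equations of the fragment `L`, for codes -/
def eqL (r21 r30 : ℕ → ℕ → ℕ → Bool) (z y : ℕ → ℕ) : Bool :=
  (r21 (y 0) (y 2) (z 0) &&
  (r21 (z 1) (y 0) (y 3) &&
  (r21 (y 1) (y 4) (z 2) &&
  (r21 (z 3) (y 1) (y 5) &&
  (r21 (z 4) (y 10) (y 6) &&
  (r21 (y 2) (y 8) (y 9) &&
  (r21 (y 3) (y 6) (y 7) &&
  (r21 (y 4) (y 9) (y 10) &&
  r21 (y 5) (y 7) (y 8)))))))))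

theorem fitsL_of {S : VS R} {r21 r30 : ℕ → ℕ → ℕ → Bool} (hr : Rel S r21 r30) (z y : ℕ → ℕ)
    (hz : ∀ d < 5, z d < S.nc) (hy : ∀ i < 11, y i < S.nc) (h : eqL r21 r30 z y = true) (l : ℕ) (hl : l < S.m) :
    FitsR bL tL hL (fun d => S.v (z d) l) (fun i => S.v (y i) l) := by
  simp only [eqL, Bool.and_eq_true] at h
  obtain ⟨e0, e1, e2, e3, e4, e5, e6, e7, e8⟩ := h
  exact fitsL (fun d => S.v (z d) l) (fun i => S.v (y i) l)
    (hr.s21 (hy 0 (by norm_num)) (hy 2 (by norm_num)) (hz 0 (by norm_num)) e0 l hl)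
    (hr.s21 (hz 1 (by norm_num)) (hy 0 (by norm_num)) (hy 3 (by norm_num)) e1 l hl).symm
    (hr.s21 (hy 1 (by norm_num)) (hy 4 (by norm_num)) (hz 2 (by norm_num)) e2 l hl)
    (hr.s21 (hz 3 (by norm_num)) (hy 1 (by norm_num)) (hy 5 (by norm_num)) e3 l hl).symm
    (hr.s21 (hz 4 (by norm_num)) (hy 10 (by norm_num)) (hy 6 (by norm_num)) e4 l hl).symm
    (hr.s21 (hy 2 (by norm_num)) (hy 8 (by norm_num)) (hy 9 (by norm_num)) e5 l hl).symm
    (hr.s21 (hy 3 (by norm_num)) (hy 6 (by norm_num)) (hy 7 (by norm_num)) e6 l hl).symm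
    (hr.s21 (hy 4 (by norm_num)) (hy 9 (by norm_num)) (hy 10 (by norm_num)) e7 l hl).symm
    (hr.s21 (hy 5 (by norm_num)) (hy 7 (by norm_num)) (hy 8 (by norm_num)) e8 l hl).symm

/-- tails of the edges of the fragment `M`: `P` minus the vertex `0` and the edge `23` (the vertex `i + 1` of `P` is called `i`); the first three connecting edges are attached at `2, 3, 5`, the last two at `1, 4` -/
def tM : Fin 11 → Fin 9 := ![0, 2, 0, 1, 2, 3, 4, 6, 8, 5, 7]

/-- heads of the edges of the fragment `M` -/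
def hM : Fin 11 → Fin 9 := ![1, 3, 5, 6, 7, 8, 6, 8, 5, 7, 4]

/-- attachment vertices of the connecting edges of the fragment `M` -/
def bM : Fin 5 → Fin 9 := ![1, 2, 4, 0, 3]

theorem fitsM (z : Fin 5 → R) (y : Fin 11 → R)
    (e0 : y 0 + y 2 = z 3)
    (e1 : y 3 = z 0 + y 0)
    (e2 : y 1 + y 4 = z 1)
    (e3 : y 5 = z 4 + y 1)
    (e4 : y 6 = z 2 + y 10)
    (e5 : y 9 = y 2 + y 8)
    (e6 : y 7 = y 3 + y 6)
    (e7 : y 10 = y 4 + y 9)
    (e8 : y 8 = y 5 + y 7)
    : FitsR bM tM hM z y := by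
  intro v
  rw [Finset.sum_filter, Finset.sum_filter, Finset.sum_filter]
  fin_cases v
  · simp [Fin.sum_univ_succ, tM, hM, bM]
    first | linear_combination e0 | linear_combination -e0
  · simp [Fin.sum_univ_succ, tM, hM, bM]
    first | linear_combination e1 | linear_combination -e1
  · simp [Fin.sum_univ_succ, tM, hM, bM]
    first | linear_combination e2 | linear_combination -e2
  · simp [Fin.sum_univ_succ, tM, hM, bM]
    first | linear_combination e3 | linear_combination -e3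
  · simp [Fin.sum_univ_succ, tM, hM, bM]
    first | linear_combination e4 | linear_combination -e4
  · simp [Fin.sum_univ_succ, tM, hM, bM]
    first | linear_combination e5 | linear_combination -e5
  · simp [Fin.sum_univ_succ, tM, hM, bM]
    first | linear_combination e6 | linear_combination -e6
  · simp [Fin.sum_univ_succ, tM, hM, bM]
    first | linear_combination e7 | linear_combination -e7
  · simp [Fin.sum_univ_succ, tM, hM, bM]
    first | linear_combination e8 | linear_combination -e8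

/-- the conservation equations of the fragment `M`, for codes -/
def eqM (r21 r30 : ℕ → ℕ → ℕ → Bool) (z y : ℕ → ℕ) : Bool :=
  (r21 (y 0) (y 2) (z 3) &&
  (r21 (z 0) (y 0) (y 3) &&
  (r21 (y 1) (y 4) (z 1) &&
  (r21 (z 4) (y 1) (y 5) &&
  (r21 (z 2) (y 10) (y 6) &&
  (r21 (y 2) (y 8) (y 9) &&
  (r21 (y 3) (y 6) (y 7) &&
  (r21 (y 4) (y 9) (y 10) &&
  r21 (y 5) (y 7) (y 8)))))))))

theorem fitsM_of {S : VS R} {r21 r30 : ℕ → ℕ → ℕ → Bool} (hr : Rel S r21 r30) (z y : ℕ → ℕ)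
    (hz : ∀ d < 5, z d < S.nc) (hy : ∀ i < 11, y i < S.nc) (h : eqM r21 r30 z y = true) (l : ℕ) (hl : l < S.m) :
    FitsR bM tM hM (fun d => S.v (z d) l) (fun i => S.v (y i) l) := by
  simp only [eqM, Bool.and_eq_true] at h
  obtain ⟨e0, e1, e2, e3, e4, e5, e6, e7, e8⟩ := h
  exact fitsM (fun d => S.v (z d) l) (fun i => S.v (y i) l)
    (hr.s21 (hy 0 (by norm_num)) (hy 2 (by norm_num)) (hz 3 (by norm_num)) e0 l hl)
    (hr.s21 (hz 0 (by norm_num)) (hy 0 (by norm_num)) (hy 3 (by norm_num)) e1 l hl).symm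
    (hr.s21 (hy 1 (by norm_num)) (hy 4 (by norm_num)) (hz 1 (by norm_num)) e2 l hl)
    (hr.s21 (hz 4 (by norm_num)) (hy 1 (by norm_num)) (hy 5 (by norm_num)) e3 l hl).symm
    (hr.s21 (hz 2 (by norm_num)) (hy 10 (by norm_num)) (hy 6 (by norm_num)) e4 l hl).symm
    (hr.s21 (hy 2 (by norm_num)) (hy 8 (by norm_num)) (hy 9 (by norm_num)) e5 l hl).symm
    (hr.s21 (hy 3 (by norm_num)) (hy 6 (by norm_num)) (hy 7 (by norm_num)) e6 l hl).symm
    (hr.s21 (hy 4 (by norm_num)) (hy 9 (by norm_num)) (hy 10 (by norm_num)) e7 l hl).symm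
    (hr.s21 (hy 5 (by norm_num)) (hy 7 (by norm_num)) (hy 8 (by norm_num)) e8 l hl).symm

/-- tails of the edges of the fragment `N`: `P` minus the vertex `0` and the edge `23` (the vertex `i + 1` of `P` is called `i`); the connecting edges are attached at `2, 3, 1, 4, 5` -/
def tN : Fin 11 → Fin 9 := ![0, 2, 0, 1, 2, 3, 4, 6, 8, 5, 7]

/-- heads of the edges of the fragment `N` -/
def hN : Fin 11 → Fin 9 := ![1, 3, 5, 6, 7, 8, 6, 8, 5, 7, 4]

/-- attachment vertices of the connecting edges of the fragment `N` -/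
def bN : Fin 5 → Fin 9 := ![1, 2, 0, 3, 4]

theorem fitsN (z : Fin 5 → R) (y : Fin 11 → R)
    (e0 : y 0 + y 2 = z 2)
    (e1 : y 3 = z 0 + y 0)
    (e2 : y 1 + y 4 = z 1)
    (e3 : y 5 = z 3 + y 1)
    (e4 : y 6 = z 4 + y 10)
    (e5 : y 9 = y 2 + y 8)
    (e6 : y 7 = y 3 + y 6)
    (e7 : y 10 = y 4 + y 9)
    (e8 : y 8 = y 5 + y 7)
    : FitsR bN tN hN z y := by
  intro v
  rw [Finset.sum_filter, Finset.sum_filter, Finset.sum_filter]
  fin_cases v
  · simp [Fin.sum_univ_succ, tN, hN, bN]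
    first | linear_combination e0 | linear_combination -e0
  · simp [Fin.sum_univ_succ, tN, hN, bN]
    first | linear_combination e1 | linear_combination -e1
  · simp [Fin.sum_univ_succ, tN, hN, bN]
    first | linear_combination e2 | linear_combination -e2
  · simp [Fin.sum_univ_succ, tN, hN, bN]
    first | linear_combination e3 | linear_combination -e3
  · simp [Fin.sum_univ_succ, tN, hN, bN]
    first | linear_combination e4 | linear_combination -e4
  · simp [Fin.sum_univ_succ, tN, hN, bN]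
    first | linear_combination e5 | linear_combination -e5
  · simp [Fin.sum_univ_succ, tN, hN, bN]
    first | linear_combination e6 | linear_combination -e6
  · simp [Fin.sum_univ_succ, tN, hN, bN]
    first | linear_combination e7 | linear_combination -e7
  · simp [Fin.sum_univ_succ, tN, hN, bN]
    first | linear_combination e8 | linear_combination -e8

/-- the conservation equations of the fragment `N`, for codes -/
def eqN (r21 r30 : ℕ → ℕ → ℕ → Bool) (z y : ℕ → ℕ) : Bool :=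
  (r21 (y 0) (y 2) (z 2) &&
  (r21 (z 0) (y 0) (y 3) &&
  (r21 (y 1) (y 4) (z 1) &&
  (r21 (z 3) (y 1) (y 5) &&
  (r21 (z 4) (y 10) (y 6) &&
  (r21 (y 2) (y 8) (y 9) &&
  (r21 (y 3) (y 6) (y 7) &&
  (r21 (y 4) (y 9) (y 10) &&
  r21 (y 5) (y 7) (y 8)))))))))

theorem fitsN_of {S : VS R} {r21 r30 : ℕ → ℕ → ℕ → Bool} (hr : Rel S r21 r30) (z y : ℕ → ℕ)
    (hz : ∀ d < 5, z d < S.nc) (hy : ∀ i < 11, y i < S.nc) (h : eqN r21 r30 z y = true) (l : ℕ) (hl : l < S.m) :
    FitsR bN tN hN (fun d => S.v (z d) l) (fun i => S.v (y i) l) := by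
  simp only [eqN, Bool.and_eq_true] at h
  obtain ⟨e0, e1, e2, e3, e4, e5, e6, e7, e8⟩ := h
  exact fitsN (fun d => S.v (z d) l) (fun i => S.v (y i) l)
    (hr.s21 (hy 0 (by norm_num)) (hy 2 (by norm_num)) (hz 2 (by norm_num)) e0 l hl)
    (hr.s21 (hz 0 (by norm_num)) (hy 0 (by norm_num)) (hy 3 (by norm_num)) e1 l hl).symm
    (hr.s21 (hy 1 (by norm_num)) (hy 4 (by norm_num)) (hz 1 (by norm_num)) e2 l hl)
    (hr.s21 (hz 3 (by norm_num)) (hy 1 (by norm_num)) (hy 5 (by norm_num)) e3 l hl).symm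
    (hr.s21 (hz 4 (by norm_num)) (hy 10 (by norm_num)) (hy 6 (by norm_num)) e4 l hl).symm
    (hr.s21 (hy 2 (by norm_num)) (hy 8 (by norm_num)) (hy 9 (by norm_num)) e5 l hl).symm
    (hr.s21 (hy 3 (by norm_num)) (hy 6 (by norm_num)) (hy 7 (by norm_num)) e6 l hl).symm
    (hr.s21 (hy 4 (by norm_num)) (hy 9 (by norm_num)) (hy 10 (by norm_num)) e7 l hl).symm
    (hr.s21 (hy 5 (by norm_num)) (hy 7 (by norm_num)) (hy 8 (by norm_num)) e8 l hl).symm

/-- tails of the edges of the fragment `O`: `P` minus the vertex `0` and the edge `23` (the vertex `i + 1` of `P` is called `i`); the connecting edges are attached at `1, 4, 5, 2, 3` -/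
def tO : Fin 11 → Fin 9 := ![0, 2, 0, 1, 2, 3, 4, 6, 8, 5, 7]

/-- heads of the edges of the fragment `O` -/
def hO : Fin 11 → Fin 9 := ![1, 3, 5, 6, 7, 8, 6, 8, 5, 7, 4]

/-- attachment vertices of the connecting edges of the fragment `O` -/
def bO : Fin 5 → Fin 9 := ![0, 3, 4, 1, 2]

theorem fitsO (z : Fin 5 → R) (y : Fin 11 → R)
    (e0 : y 0 + y 2 = z 0)
    (e1 : y 3 = z 3 + y 0)
    (e2 : y 1 + y 4 = z 4)
    (e3 : y 5 = z 1 + y 1)
    (e4 : y 6 = z 2 + y 10)
    (e5 : y 9 = y 2 + y 8)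
    (e6 : y 7 = y 3 + y 6)
    (e7 : y 10 = y 4 + y 9)
    (e8 : y 8 = y 5 + y 7)
    : FitsR bO tO hO z y := by
  intro v
  rw [Finset.sum_filter, Finset.sum_filter, Finset.sum_filter]
  fin_cases v
  · simp [Fin.sum_univ_succ, tO, hO, bO]
    first | linear_combination e0 | linear_combination -e0
  · simp [Fin.sum_univ_succ, tO, hO, bO]
    first | linear_combination e1 | linear_combination -e1
  · simp [Fin.sum_univ_succ, tO, hO, bO]
    first | linear_combination e2 | linear_combination -e2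
  · simp [Fin.sum_univ_succ, tO, hO, bO]
    first | linear_combination e3 | linear_combination -e3
  · simp [Fin.sum_univ_succ, tO, hO, bO]
    first | linear_combination e4 | linear_combination -e4
  · simp [Fin.sum_univ_succ, tO, hO, bO]
    first | linear_combination e5 | linear_combination -e5
  · simp [Fin.sum_univ_succ, tO, hO, bO]
    first | linear_combination e6 | linear_combination -e6
  · simp [Fin.sum_univ_succ, tO, hO, bO]
    first | linear_combination e7 | linear_combination -e7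
  · simp [Fin.sum_univ_succ, tO, hO, bO]
    first | linear_combination e8 | linear_combination -e8

/-- the conservation equations of the fragment `O`, for codes -/
def eqO (r21 r30 : ℕ → ℕ → ℕ → Bool) (z y : ℕ → ℕ) : Bool :=
  (r21 (y 0) (y 2) (z 0) &&
  (r21 (z 3) (y 0) (y 3) &&
  (r21 (y 1) (y 4) (z 4) &&
  (r21 (z 1) (y 1) (y 5) &&
  (r21 (z 2) (y 10) (y 6) &&
  (r21 (y 2) (y 8) (y 9) &&
  (r21 (y 3) (y 6) (y 7) &&
  (r21 (y 4) (y 9) (y 10) &&
  r21 (y 5) (y 7) (y 8)))))))))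

theorem fitsO_of {S : VS R} {r21 r30 : ℕ → ℕ → ℕ → Bool} (hr : Rel S r21 r30) (z y : ℕ → ℕ)
    (hz : ∀ d < 5, z d < S.nc) (hy : ∀ i < 11, y i < S.nc) (h : eqO r21 r30 z y = true) (l : ℕ) (hl : l < S.m) :
    FitsR bO tO hO (fun d => S.v (z d) l) (fun i => S.v (y i) l) := by
  simp only [eqO, Bool.and_eq_true] at h
  obtain ⟨e0, e1, e2, e3, e4, e5, e6, e7, e8⟩ := h
  exact fitsO (fun d => S.v (z d) l) (fun i => S.v (y i) l)
    (hr.s21 (hy 0 (by norm_num)) (hy 2 (by norm_num)) (hz 0 (by norm_num)) e0 l hl)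
    (hr.s21 (hz 3 (by norm_num)) (hy 0 (by norm_num)) (hy 3 (by norm_num)) e1 l hl).symm
    (hr.s21 (hy 1 (by norm_num)) (hy 4 (by norm_num)) (hz 4 (by norm_num)) e2 l hl)
    (hr.s21 (hz 1 (by norm_num)) (hy 1 (by norm_num)) (hy 5 (by norm_num)) e3 l hl).symm
    (hr.s21 (hz 2 (by norm_num)) (hy 10 (by norm_num)) (hy 6 (by norm_num)) e4 l hl).symm
    (hr.s21 (hy 2 (by norm_num)) (hy 8 (by norm_num)) (hy 9 (by norm_num)) e5 l hl).symm
    (hr.s21 (hy 3 (by norm_num)) (hy 6 (by norm_num)) (hy 7 (by norm_num)) e6 l hl).symm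
    (hr.s21 (hy 4 (by norm_num)) (hy 9 (by norm_num)) (hy 10 (by norm_num)) e7 l hl).symm
    (hr.s21 (hy 5 (by norm_num)) (hy 7 (by norm_num)) (hy 8 (by norm_num)) e8 l hl).symm

/-- the finite facts, with those for cuts with five edges -/
structure Ext5 (S : VS R) : Prop extends Ext S where
  star : ∀ z : Fin 5 → ℕ, (∀ d, z d < S.nc) →
    (∀ k < S.m, S.v (z 0) k + S.v (z 1) k + S.v (z 2) k = 0) →
    (∀ k < S.m, S.v (z 3) k + S.v (z 4) k = 0) →
    ExtTo S bK tK hK z ∧ ExtTo S bL tL hL z ∧ ExtTo S bM tM hM z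
  path : ∀ z : Fin 5 → ℕ, (∀ d, z d < S.nc) → ∀ w < S.nc, ∀ x < S.nc,
    (∀ k < S.m, S.v (z 0) k + S.v (z 1) k = S.v w k) →
    (∀ k < S.m, S.v w k + S.v (z 2) k = S.v x k) →
    (∀ k < S.m, S.v x k + S.v (z 3) k + S.v (z 4) k = 0) →
    ExtTo S bN tN hN z ∧ ExtTo S bO tO hO z

section
variable (S : VS R) (r21 r30 : ℕ → ℕ → ℕ → Bool) (sm th : ℕ → ℕ → ℕ) (ng : ℕ → ℕ)

def chkK (nc I : ℕ) (eq : (ℕ → ℕ) → (ℕ → ℕ) → Bool) (tab : List (List (List ℕ))) : Bool :=
  allB nc fun p => allB nc fun q => !(Nat.blt (th p q) nc) || allB nc fun r =>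
    wit nc I eq [p, q, th p q, r, ng r] (((tab.getD p []).getD q []).getD r 0)

def chkN (nc : ℕ) (eq : (ℕ → ℕ) → (ℕ → ℕ) → Bool) (tab : List (List (List (List ℕ)))) : Bool :=
  allB nc fun p => allB nc fun q => !(Nat.blt (sm p q) nc) || allB nc fun r =>
    !(Nat.blt (sm (sm p q) r) nc) || allB nc fun s => !(Nat.blt (th (sm (sm p q) r) s) nc) ||
      wit nc 11 eq [p, q, r, s, th (sm (sm p q) r) s]
        ((((tab.getD p []).getD q []).getD r []).getD s 0)
end

variable {S : VS R} {r21 r30 : ℕ → ℕ → ℕ → Bool} {sm th : ℕ → ℕ → ℕ} {ng : ℕ → ℕ}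

theorem ext_chkK (hF : Fn S r21 r30 sm th ng) {I N : ℕ} {b : Fin 5 → Fin N} {t h : Fin I → Fin N}
    {eq : (ℕ → ℕ) → (ℕ → ℕ) → Bool}
    (heq : ∀ z y : ℕ → ℕ, (∀ d < 5, z d < S.nc) → (∀ i < I, y i < S.nc) → eq z y = true →
      ∀ l < S.m, FitsR b t h (fun d => S.v (z d) l) (fun i => S.v (y i) l))
    {tab : List (List (List ℕ))} (hc : chkK th ng S.nc I eq tab = true)
    (z : Fin 5 → ℕ) (hz : ∀ d, z d < S.nc)
    (h1 : ∀ k < S.m, S.v (z 0) k + S.v (z 1) k + S.v (z 2) k = 0)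
    (h2 : ∀ k < S.m, S.v (z 3) k + S.v (z 4) k = 0) : ExtTo S b t h z := by
  have e1 := hF.ft (hz 0) (hz 1) (hz 2) (hF.c30 (hz 0) (hz 1) (hz 2) h1)
  have e2 := hF.fn (hz 3) (hz 4) h2
  have h3 := imp_of (allB_spec (allB_spec hc _ (hz 0)) _ (hz 1)) (blt_of (by rw [e1]; exact hz 2))
  have h4 := allB_spec h3 _ (hz 3)
  exact ext_of_wit heq z hz _ (by intro d; fin_cases d <;> simp [e1, e2]) _ h4

theorem ext_chkN (hF : Fn S r21 r30 sm th ng) {N : ℕ} {b : Fin 5 → Fin N} {t h : Fin 11 → Fin N}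
    {eq : (ℕ → ℕ) → (ℕ → ℕ) → Bool}
    (heq : ∀ z y : ℕ → ℕ, (∀ d < 5, z d < S.nc) → (∀ i < 11, y i < S.nc) → eq z y = true →
      ∀ l < S.m, FitsR b t h (fun d => S.v (z d) l) (fun i => S.v (y i) l))
    {tab : List (List (List (List ℕ)))} (hc : chkN sm th S.nc eq tab = true)
    (z : Fin 5 → ℕ) (hz : ∀ d, z d < S.nc) (w : ℕ) (hw : w < S.nc) (x : ℕ) (hx : x < S.nc)
    (h1 : ∀ k < S.m, S.v (z 0) k + S.v (z 1) k = S.v w k)
    (h2 : ∀ k < S.m, S.v w k + S.v (z 2) k = S.v x k)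
    (h3 : ∀ k < S.m, S.v x k + S.v (z 3) k + S.v (z 4) k = 0) : ExtTo S b t h z := by
  have e1 := hF.fs (hz 0) (hz 1) hw (hF.c21 (hz 0) (hz 1) hw h1)
  have e2 := hF.fs hw (hz 2) hx (hF.c21 hw (hz 2) hx h2)
  have e3 := hF.ft hx (hz 3) (hz 4) (hF.c30 hx (hz 3) (hz 4) h3)
  have h4 := imp_of (allB_spec (allB_spec hc _ (hz 0)) _ (hz 1)) (blt_of (by rw [e1]; exact hw))
  have h5 := imp_of (allB_spec h4 _ (hz 2)) (blt_of (by rw [e1, e2]; exact hx))
  have h6 := imp_of (allB_spec h5 _ (hz 3)) (blt_of (by rw [e1, e2, e3]; exact hz 4))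
  exact ext_of_wit heq z hz _ (by intro d; fin_cases d <;> simp [e1, e2, e3]) _ h6

end Pool.Agent.H23.PS
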