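import Pool.Agent.H23.PS.Oc
import Pool.Agent.H160R2.HF.Final
import Pool.Agent.TH505.SC.Assemble

/-!
# Orientable five cycle double covers and sums with the Petersen graph
-/

set_option autoImplicit false
set_option linter.unusedVariables false

namespace Pool.Agent.H23.PS
open Finset Pool.Agent.H160R2.HF Pool.Agent.H179R3.HF

/-- An orientable cycle double cover with five classes: the edge `e` is used by the class `p e` in
its own direction and by another class `q e` in the opposite direction, and in each class every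
vertex is entered as often as it is left. -/
def FiveClasses {V E : Type} [Fintype V] [Fintype E] [DecidableEq V] (G : OrGraph V E) : Prop :=
  ∃ p q : E → Fin 5, (∀ e, p e ≠ q e) ∧
    ∀ i, G.IsFlow (fun e => (if p e = i then 1 else 0) - (if q e = i then 1 else 0))

theorem oc_code : ∀ i j : Fin 5, i ≠ j → ∃ c < 20, ocI c = i ∧ ocJ c = j := by decide

theorem oc_dec : ∀ c < 20, ocI c < 5 ∧ ocJ c < 5 ∧ ocI c ≠ ocJ c := by decide

theorem fiveClasses_iff {V E : Type} [Fintype V] [Fintype E] [DecidableEq V] (G : OrGraph V E) :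
    FiveClasses G ↔ HasV oc G := by
  rw [hasV_iff]
  constructor
  · rintro ⟨p, q, h1, h2⟩
    choose c hc hI hJ using fun e => oc_code (p e) (q e) (h1 e)
    refine ⟨c, hc, fun k hk => ?_⟩
    have := h2 ⟨k, hk⟩
    intro v
    have h := this v
    have key : ∀ e, oc.v (c e) k =
        (if p e = (⟨k, hk⟩ : Fin 5) then (1 : ℤ) else 0) - (if q e = ⟨k, hk⟩ then 1 else 0) := by
      intro e
      show (if ocI (c e) = k then (1 : ℤ) else 0) - (if ocJ (c e) = k then 1 else 0) = _
      rw [hI, hJ]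
      simp only [Fin.ext_iff]
    simp only [key]
    exact h
  · rintro ⟨c, hc, h⟩
    refine ⟨fun e => ⟨ocI (c e), (oc_dec _ (hc e)).1⟩, fun e => ⟨ocJ (c e), (oc_dec _ (hc e)).2.1⟩,
      fun e he => (oc_dec _ (hc e)).2.2 (Fin.ext_iff.1 he), fun i v => ?_⟩
    have := h i i.2 v
    simp only [Fin.ext_iff]
    exact this

theorem fiveClasses_sum {V V' E E' : Type} [Fintype V] [Fintype E] [DecidableEq V]
    [Fintype V'] [Fintype E'] [DecidableEq V'] {G : OrGraph V E} {K : OrGraph V' E'}
    (h : PetersenSum G K) (hG : FiveClasses G) : FiveClasses K :=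
  (fiveClasses_iff K).2 (hasV_of_petersenSum oc_ext h ((fiveClasses_iff G).1 hG))

/-! ### Graphs with a nowhere-zero 4-flow -/

theorem deg_cast {V E : Type} [Fintype V] [Fintype E] [DecidableEq V] [DecidableEq E]
    (G : OrGraph V E) (F : Finset E) (v : V) : ((G.deg F v : ℕ) : ZMod 2) =
      ∑ e, (if e ∈ F then ((if G.t e = v then 1 else 0) + (if G.h e = v then 1 else 0)) else 0) := by
  unfold OrGraph.deg
  rw [Nat.cast_add, Finset.card_filter, Finset.card_filter, Nat.cast_sum, Nat.cast_sum,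
    ← Finset.sum_add_distrib, ← Finset.sum_filter]
  rw [Finset.filter_mem_eq_inter, Finset.univ_inter]
  refine Finset.sum_congr rfl fun e _ => ?_
  push_cast
  rfl

theorem even_symmDiff {V E : Type} [Fintype V] [Fintype E] [DecidableEq V] [DecidableEq E]
    (G : OrGraph V E) (F₁ F₂ : Finset E) (v : V) (h₁ : Even (G.deg F₁ v))
    (h₂ : Even (G.deg F₂ v)) : Even (G.deg (symmDiff F₁ F₂) v) := by
  rw [← ZMod.natCast_eq_zero_iff_even] at h₁ h₂ ⊢
  rw [deg_cast] at h₁ h₂ ⊢
  have h := congrArg₂ (· + ·) h₁ h₂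
  simp only [add_zero] at h
  refine Eq.trans ?_ h
  rw [← Finset.sum_add_distrib]
  refine Finset.sum_congr rfl fun e _ => ?_
  have h2 : ∀ x : ZMod 2, x + x = 0 := by decide
  by_cases a : e ∈ F₁ <;> by_cases b : e ∈ F₂ <;> simp [Finset.mem_symmDiff, a, b]
  rw [h2]

/-- the values of the four classes, doubled -/
def Y (a b c : ℤ) : Fin 5 → ℤ
  | 0 => a + b + c
  | 1 => a - b - c
  | 2 => -a + b - c
  | 3 => -a - b + c
  | 4 => 0

theorem Y_ok {a b c : ℤ}
    (h : (a = 0 ∧ (b = 1 ∨ b = -1) ∧ (c = 1 ∨ c = -1)) ∨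
      (b = 0 ∧ (a = 1 ∨ a = -1) ∧ (c = 1 ∨ c = -1)) ∨
      (c = 0 ∧ (a = 1 ∨ a = -1) ∧ (b = 1 ∨ b = -1))) :
    ∃ p q : Fin 5, p ≠ q ∧ ∀ i,
      2 * ((if p = i then 1 else 0) - (if q = i then 1 else 0) : ℤ) = Y a b c i := by
  rcases h with ⟨rfl, h1, h2⟩ | ⟨rfl, h1, h2⟩ | ⟨rfl, h1, h2⟩ <;> rcases h1 with rfl | rfl <;>
    rcases h2 with rfl | rfl <;> decide

theorem fiveClasses_of_cover {V E : Type} [Fintype V] [Fintype E] [DecidableEq V] [DecidableEq E]
    (G : OrGraph V E) (F₁ F₂ : Finset E) (h₁ : ∀ v, Even (G.deg F₁ v))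
    (h₂ : ∀ v, Even (G.deg F₂ v)) (h : F₁ ∪ F₂ = univ) : FiveClasses G := by
  obtain ⟨a, a1, a2⟩ := eulerian G.t G.h F₁ (fun v => h₁ v)
  obtain ⟨b, b1, b2⟩ := eulerian G.t G.h F₂ (fun v => h₂ v)
  obtain ⟨c, c1, c2⟩ := eulerian G.t G.h (symmDiff F₁ F₂)
    (fun v => even_symmDiff G F₁ F₂ v (h₁ v) (h₂ v))
  have fa := G.isFlow_of_net a2
  have fb := G.isFlow_of_net b2
  have fc := G.isFlow_of_net c2
  have key : ∀ e, ∃ p q : Fin 5, p ≠ q ∧ ∀ i,
      2 * ((if p = i then 1 else 0) - (if q = i then 1 else 0) : ℤ) = Y (a e) (b e) (c e) i := by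
    intro e
    apply Y_ok
    have he : e ∈ F₁ ∪ F₂ := by rw [h]; exact mem_univ e
    rw [mem_union] at he
    by_cases x : e ∈ F₁
    · by_cases y : e ∈ F₂
      · right; right
        exact ⟨(c1 e).2 (by simp [Finset.mem_symmDiff, x, y]), (a1 e).1 x, (b1 e).1 y⟩
      · right; left
        exact ⟨(b1 e).2 y, (a1 e).1 x, (c1 e).1 (by simp [Finset.mem_symmDiff, x, y])⟩
    · have y : e ∈ F₂ := he.resolve_left x
      left
      exact ⟨(a1 e).2 x, (b1 e).1 y, (c1 e).1 (by simp [Finset.mem_symmDiff, x, y])⟩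
  choose p q hpq hY using key
  refine ⟨p, q, hpq, fun i v => ?_⟩
  have h2 : ∑ e with G.t e = v, Y (a e) (b e) (c e) i =
      ∑ e with G.h e = v, Y (a e) (b e) (c e) i := by
    have xa := fa v
    have xb := fb v
    have xc := fc v
    fin_cases i
    · show ∑ e with G.t e = v, (a e + b e + c e) = ∑ e with G.h e = v, (a e + b e + c e)
      simp only [Finset.sum_add_distrib]
      linarith
    · show ∑ e with G.t e = v, (a e - b e - c e) = ∑ e with G.h e = v, (a e - b e - c e)
      simp only [Finset.sum_sub_distrib]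
      linarith
    · show ∑ e with G.t e = v, (-a e + b e - c e) = ∑ e with G.h e = v, (-a e + b e - c e)
      simp only [Finset.sum_sub_distrib, Finset.sum_add_distrib, Finset.sum_neg_distrib]
      linarith
    · show ∑ e with G.t e = v, (-a e - b e + c e) = ∑ e with G.h e = v, (-a e - b e + c e)
      simp only [Finset.sum_sub_distrib, Finset.sum_add_distrib, Finset.sum_neg_distrib]
      linarith
    · show ∑ e with G.t e = v, (0 : ℤ) = ∑ e with G.h e = v, (0 : ℤ)
      simp
  simp only [← hY, ← Finset.mul_sum] at h2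
  linarith

/-! ### Simple graphs -/

/-- `K` is an orientation of the simple graph `S`: every edge of `S` occurs exactly once, in one of
its two directions, and `K` has no other edges. -/
def IsOrientation {V E : Type} (S : SimpleGraph V) (K : OrGraph V E) : Prop :=
  (∀ e, S.Adj (K.t e) (K.h e)) ∧
    ∀ u v, S.Adj u v → ∃! e, (K.t e = u ∧ K.h e = v) ∨ (K.h e = u ∧ K.t e = v)

open Pool.Agent.TH505.OCDC Pool.Agent.TH505.SC

/-- The flow of the class `i` on the pairs of vertices. -/
def gfl {V E : Type} [Fintype E] [DecidableEq V] (K : OrGraph V E) (p q : E → Fin 5) (i : Fin 5)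
    (u v : V) : ℤ :=
  ∑ e, ((if p e = i then 1 else 0) - (if q e = i then 1 else 0)) *
    ((if K.t e = u ∧ K.h e = v then 1 else 0) - (if K.h e = u ∧ K.t e = v then 1 else 0))

theorem five_of_classes {V E : Type} [Fintype V] [Fintype E] [DecidableEq V] (S : SimpleGraph V)
    (K : OrGraph V E) (hK : IsOrientation S K) (p q : E → Fin 5) (hpq : ∀ e, p e ≠ q e)
    (hf : ∀ i, K.IsFlow (fun e => (if p e = i then 1 else 0) - (if q e = i then 1 else 0))) :
    Five S (gfl K p q) := by
  obtain ⟨hK1, hK2⟩ := hK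
  have hanti : ∀ i u v, gfl K p q i v u = - gfl K p q i u v := by
    intro i u v
    unfold gfl
    rw [← Finset.sum_neg_distrib]
    refine Finset.sum_congr rfl fun e _ => ?_
    simp only [and_comm]
    ring
  have hz : ∀ i u v, ¬ S.Adj u v → gfl K p q i u v = 0 := by
    intro i u v h
    unfold gfl
    refine Finset.sum_eq_zero fun e _ => ?_
    rw [if_neg (c := K.t e = u ∧ K.h e = v), if_neg (c := K.h e = u ∧ K.t e = v)]
    · ring
    · rintro ⟨h1, h2⟩
      exact h (h1 ▸ h2 ▸ (hK1 e).symm)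
    · rintro ⟨h1, h2⟩
      exact h (h1 ▸ h2 ▸ (hK1 e))
  have hval : ∀ u v, S.Adj u v → ∃ e, (∀ i, gfl K p q i u v =
      (if p e = i then 1 else 0) - (if q e = i then 1 else 0)) ∨
      ∀ i, gfl K p q i u v = -((if p e = i then 1 else 0) - (if q e = i then 1 else 0)) := by
    intro u v h
    have hne := h.ne
    obtain ⟨e₀, he₀, huniq⟩ := hK2 u v h
    have h0 : ∀ i, gfl K p q i u v = ((if p e₀ = i then 1 else 0) - (if q e₀ = i then 1 else 0)) *
        ((if K.t e₀ = u ∧ K.h e₀ = v then 1 else 0) -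
          (if K.h e₀ = u ∧ K.t e₀ = v then 1 else 0)) := by
      intro i
      unfold gfl
      refine Finset.sum_eq_single_of_mem e₀ (mem_univ _) ?_
      intro e _ hne'
      have h1 : ¬ ((K.t e = u ∧ K.h e = v) ∨ (K.h e = u ∧ K.t e = v)) := fun h => hne' (huniq e h)
      rw [not_or] at h1
      rw [if_neg h1.1, if_neg h1.2]
      ring
    refine ⟨e₀, ?_⟩
    rcases he₀ with ⟨h1, h2⟩ | ⟨h1, h2⟩
    · left
      intro i
      rw [h0 i, if_pos (And.intro h1 h2),
        if_neg (c := K.h e₀ = u ∧ K.t e₀ = v) (fun h3 => hne (h1.symm.trans h3.2))]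
      ring
    · right
      intro i
      rw [h0 i, if_neg (c := K.t e₀ = u ∧ K.h e₀ = v) (fun h3 => hne (h3.1.symm.trans h2)),
        if_pos (And.intro h1 h2)]
      ring
  refine ⟨hanti, ?_, ?_, hz, ?_⟩
  · intro i u
    have h := hf i u
    rw [Finset.sum_filter, Finset.sum_filter, ← sub_eq_zero, ← Finset.sum_sub_distrib] at h
    rw [← h]
    unfold gfl
    rw [Finset.sum_comm]
    refine Finset.sum_congr rfl fun e _ => ?_
    rw [← Finset.mul_sum, Finset.sum_sub_distrib]
    have e1 : (∑ x : V, if K.t e = u ∧ K.h e = x then (1 : ℤ) else 0) =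
        if K.t e = u then 1 else 0 := by
      by_cases h : K.t e = u <;> simp [h]
    have e2 : (∑ x : V, if K.h e = u ∧ K.t e = x then (1 : ℤ) else 0) =
        if K.h e = u then 1 else 0 := by
      by_cases h : K.h e = u <;> simp [h]
    rw [e1, e2]
    split_ifs <;> ring
  · intro i u v
    by_cases h : S.Adj u v
    · obtain ⟨e, h2 | h2⟩ := hval u v h
      · rw [h2 i]
        split_ifs <;> simp
      · rw [h2 i]
        split_ifs <;> simp
    · exact Or.inl (hz i u v h)
  · intro u v h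
    obtain ⟨e, h2 | h2⟩ := hval u v h
    · refine ⟨p e, ?_, ?_⟩
      · show gfl K p q _ u v = 1
        rw [h2, if_pos rfl, if_neg (fun h' => hpq e h'.symm)]
        norm_num
      · intro j hj
        have hj' : gfl K p q j u v = 1 := hj
        rw [h2] at hj'
        by_cases h3 : p e = j
        · exact h3.symm
        · rw [if_neg h3] at hj'
          split_ifs at hj' <;> norm_num at hj'
    · refine ⟨q e, ?_, ?_⟩
      · show gfl K p q _ u v = 1
        rw [h2, if_neg (hpq e), if_pos rfl]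
        norm_num
      · intro j hj
        have hj' : gfl K p q j u v = 1 := hj
        rw [h2] at hj'
        by_cases h3 : q e = j
        · exact h3.symm
        · rw [if_neg h3] at hj'
          split_ifs at hj' <;> norm_num at hj'

theorem cycles_of_classes {V E : Type} [Fintype V] [Fintype E] [DecidableEq V] (S : SimpleGraph V)
    (K : OrGraph V E) (hK : IsOrientation S K) (hF : FiveClasses K) :
    ∃ C : Fin 5 → List (Σ v : V, S.Walk v v), (∀ i, ∀ c ∈ C i, c.2.IsCycle) ∧
      (∀ i u v, tot (C i) u v + tot (C i) v u ≤ 1) ∧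
      ∀ u v, S.Adj u v → ∑ i, tot (C i) u v = 1 := by
  obtain ⟨p, q, hpq, hf⟩ := hF
  obtain ⟨h1, h2, h4, h5, h6⟩ := five_of_classes S K hK p q hpq hf
  have key : ∀ i, ∃ C : List (Σ v : V, S.Walk v v), (∀ c ∈ C, c.2.IsCycle) ∧
      ∀ u v, tot C u v = ind (gfl K p q i u v = 1) := fun i =>
    flow_decomp (gfl K p q i) (h1 i) (h4 i) (fun u v hne => by
      by_contra h'
      exact hne (h5 i u v h')) (h2 i)
  choose C hC1 hC2 using key
  refine ⟨C, hC1, ?_, ?_⟩
  · intro i u v
    rw [hC2, hC2, h1 i u v]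
    rcases h4 i u v with h7 | h7 | h7
    · rw [h7, ind_neg (by norm_num), ind_neg (by norm_num)]; norm_num
    · rw [h7, ind_pos rfl, ind_neg (by norm_num)]
    · rw [h7, ind_neg (by norm_num), ind_pos (by norm_num)]
  · intro u v huv
    rw [Finset.sum_congr rfl (fun i _ => hC2 i u v)]
    obtain ⟨i, hi1, hi2⟩ := h6 u v huv
    rw [Finset.sum_eq_single i]
    · exact ind_pos hi1
    · intro k _ hk
      exact ind_neg (fun h' => hk (hi2 k h'))
    · intro h'; exact absurd (mem_univ _) h'

end Pool.Agent.H23.PS
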