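import Pool.Agent.H23.PS.Sum5
import Pool.Agent.H23.PS.FuK
import Pool.Agent.H23.PS.FuN
import Pool.Agent.H23.PS.FuO
import Pool.Agent.H23.PS.OcFin

/-!
# Six even subgraphs with every edge in exactly four of them and sums with the Petersen graph
-/

set_option autoImplicit false
set_option linter.unusedVariables false

namespace Pool.Agent.H23.PS
open Finset Pool.Agent.H160R2.HF Pool.Agent.H179R3.HF

theorem fu_ext5 : Ext5 fu where
  toExt := fu_ext
  star z hz h1 h2 :=
    ⟨ext_chkK fu_fn (fitsK_of fu_fn.toRel) fu_cK z hz h1 h2,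
      ext_chkK fu_fn (fitsL_of fu_fn.toRel) fu_cL z hz h1 h2,
      ext_chkK fu_fn (fitsM_of fu_fn.toRel) fu_cM z hz h1 h2⟩
  path z hz w hw x hx h1 h2 h3 :=
    ⟨ext_chkN fu_fn (fitsN_of fu_fn.toRel) fu_cNN z hz w hw x hx h1 h2 h3,
      ext_chkN fu_fn (fitsO_of fu_fn.toRel) fu_cOO z hz w hw x hx h1 h2 h3⟩

/-- There are six even subgraphs such that every edge lies in exactly four of them. -/
def SixCover {V E : Type} [Fintype V] [Fintype E] [DecidableEq V] [DecidableEq E]
    (G : OrGraph V E) : Prop :=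
  ∃ C : Fin 6 → Finset E, (∀ i v, Even (G.deg (C i) v)) ∧
    ∀ e, (univ.filter (fun i => e ∈ C i)).card = 4

theorem fu_code : ∀ s : Finset (Fin 6), s.card = 4 →
    ∃ c < 15, ∀ k : Fin 6, (k ∈ s ↔ fuM c / 2 ^ (k : ℕ) % 2 = 1) := by decide +kernel

theorem fu_dec : ∀ c < 15, (univ.filter fun k : Fin 6 => fuM c / 2 ^ (k : ℕ) % 2 = 1).card = 4 := by
  decide +kernel

theorem even_iff_fl {V E : Type} [Fintype V] [Fintype E] [DecidableEq V] [DecidableEq E]
    (G : OrGraph V E) (F : Finset E) : (∀ v, Even (G.deg F v)) ↔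
      IsFlR G (fun e => if e ∈ F then (1 : ZMod 2) else 0) := by
  refine forall_congr' fun v => ?_
  rw [← ZMod.natCast_eq_zero_iff_even, deg_cast, Finset.sum_filter, Finset.sum_filter]
  have h : (∑ e, (if e ∈ F then ((if G.t e = v then 1 else 0) + (if G.h e = v then 1 else 0))
      else 0) : ZMod 2) = (∑ e, if G.t e = v then (if e ∈ F then (1 : ZMod 2) else 0) else 0) +
        ∑ e, if G.h e = v then (if e ∈ F then (1 : ZMod 2) else 0) else 0 := by
    rw [← Finset.sum_add_distrib]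
    refine Finset.sum_congr rfl fun e _ => ?_
    by_cases a : e ∈ F <;> simp [a]
  rw [h]
  exact CharTwo.add_eq_zero

theorem sixCover_iff {V E : Type} [Fintype V] [Fintype E] [DecidableEq V] [DecidableEq E]
    (G : OrGraph V E) : SixCover G ↔ HasV fu G := by
  rw [hasV_iff]
  constructor
  · rintro ⟨C, h1, h2⟩
    choose c hc hk using fun e => fu_code (univ.filter fun i => e ∈ C i) (h2 e)
    refine ⟨c, hc, fun k hk' => ?_⟩
    have := (even_iff_fl G (C ⟨k, hk'⟩)).1 (h1 _)
    intro v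
    have h := this v
    have key : ∀ e, fu.v (c e) k = if e ∈ C ⟨k, hk'⟩ then (1 : ZMod 2) else 0 := by
      intro e
      show (if fuM (c e) / 2 ^ k % 2 = 1 then (1 : ZMod 2) else 0) = _
      have h3 := hk e ⟨k, hk'⟩
      simp only [mem_filter, mem_univ, true_and] at h3
      by_cases h4 : e ∈ C ⟨k, hk'⟩
      · rw [if_pos h4, if_pos (h3.1 h4)]
      · rw [if_neg h4, if_neg (fun h5 => h4 (h3.2 h5))]
    simp only [key]
    exact h
  · rintro ⟨c, hc, h⟩
    refine ⟨fun i => univ.filter fun e => fuM (c e) / 2 ^ (i : ℕ) % 2 = 1, fun i => ?_,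
      fun e => ?_⟩
    · rw [even_iff_fl]
      intro v
      have h2 := h i i.2 v
      simp only [mem_filter, mem_univ, true_and]
      exact h2
    · simp only [mem_filter, mem_univ, true_and]
      exact fu_dec _ (hc e)

theorem sixCover_sum {V V' E E' : Type} [Fintype V] [Fintype E] [DecidableEq V] [DecidableEq E]
    [Fintype V'] [Fintype E'] [DecidableEq V'] [DecidableEq E'] {G : OrGraph V E}
    {K : OrGraph V' E'} (h : PetersenSum5 G K) (hG : SixCover G) : SixCover K :=
  (sixCover_iff K).2 (hasV_of_petersenSum5 fu_ext5 h ((sixCover_iff G).1 hG))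

theorem sixCover_of_union {V E : Type} [Fintype V] [Fintype E] [DecidableEq V] [DecidableEq E]
    (G : OrGraph V E) (F₁ F₂ : Finset E) (h₁ : ∀ v, Even (G.deg F₁ v))
    (h₂ : ∀ v, Even (G.deg F₂ v)) (h : F₁ ∪ F₂ = univ) : SixCover G := by
  refine ⟨![F₁, F₁, F₂, F₂, symmDiff F₁ F₂, symmDiff F₁ F₂], ?_, ?_⟩
  · intro i v
    have h3 := even_symmDiff G F₁ F₂ v (h₁ v) (h₂ v)
    fin_cases i
    · exact h₁ v
    · exact h₁ v
    · exact h₂ v
    · exact h₂ v
    · exact h3
    · exact h3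
  · intro e
    have he : e ∈ F₁ ∪ F₂ := by rw [h]; exact mem_univ e
    rw [mem_union] at he
    rw [Finset.card_filter]
    simp only [Fin.sum_univ_six]
    simp only [Matrix.cons_val, Finset.mem_symmDiff]
    by_cases x : e ∈ F₁ <;> by_cases y : e ∈ F₂ <;> simp [x, y] at he ⊢

end Pool.Agent.H23.PS
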