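import Pool.Agent.H23.PS.Frag

/-!
# Sums with the Petersen graph preserve flows with values in a finite set

A value system `S` consists of `nc` vectors `S.v c` with `m` coordinates in a commutative ring.  If
every choice of values on the edges of the cut which is possible on the small side extends to the
fragments of the Petersen graph, then the existence of a flow with values in `S` is preserved by
the sums with the Petersen graph.
-/

set_option autoImplicit false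
set_option linter.unusedVariables false

universe u v

namespace Pool.Agent.H23.PS
open Finset Pool.Agent.H160R2.HF Pool.Agent.H179R3.HF

/-- conservation at every vertex -/
def IsFlR {R : Type} [AddCommMonoid R] {V E : Type*} [Fintype E] [DecidableEq V]
    (G : OrGraph V E) (φ : E → R) : Prop :=
  ∀ v, ∑ e with G.t e = v, φ e = ∑ e with G.h e = v, φ e

/-- a finite system of values -/
structure VS (R : Type) where
  m : ℕ
  nc : ℕ
  v : ℕ → ℕ → R

variable {R : Type} [CommRing R]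

/-- a flow with values in `S`, given by codes -/
def IsV (S : VS R) {V E : Type*} [Fintype E] [DecidableEq V] (G : OrGraph V E) (c : E → ℕ) : Prop :=
  (∀ e, c e < S.nc) ∧ ∀ k < S.m, IsFlR G (fun e => S.v (c e) k)

/-- finite and has a flow with values in `S` -/
def HasV (S : VS R) {V : Type u} {E : Type v} (G : OrGraph V E) : Prop :=
  ∃ (_ : Fintype V) (_ : Fintype E) (_ : DecidableEq V), ∃ c : E → ℕ, IsV S G c

theorem hasV_iff (S : VS R) {V : Type u} {E : Type v} [i1 : Fintype V] [i2 : Fintype E]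
    [i3 : DecidableEq V] (G : OrGraph V E) : HasV S G ↔ ∃ c : E → ℕ, IsV S G c := by
  constructor
  · rintro ⟨j1, j2, j3, h⟩
    obtain rfl := Subsingleton.elim i1 j1
    obtain rfl := Subsingleton.elim i2 j2
    obtain rfl := Subsingleton.elim i3 j3
    exact h
  · intro h
    exact ⟨i1, i2, i3, h⟩

/-- extension of the boundary values `z` to a fragment -/
def ExtTo (S : VS R) {n k N : ℕ} (b : Fin n → Fin N) (t h : Fin k → Fin N) (z : Fin n → ℕ) : Prop :=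
  ∃ y : Fin k → ℕ, (∀ i, y i < S.nc) ∧
    ∀ l < S.m, FitsR b t h (fun d => S.v (z d) l) (fun i => S.v (y i) l)

/-- the finite facts -/
structure Ext (S : VS R) : Prop where
  ng : ∀ p < S.nc, ∃ q < S.nc, ∀ k < S.m, S.v q k = - S.v p k
  E : ∀ z : Fin 2 → ℕ, (∀ d, z d < S.nc) → (∀ k < S.m, S.v (z 0) k + S.v (z 1) k = 0) →
    ExtTo S bE tE hE z
  V : ∀ z : Fin 3 → ℕ, (∀ d, z d < S.nc) →
    (∀ k < S.m, S.v (z 0) k + S.v (z 1) k + S.v (z 2) k = 0) → ExtTo S bV tV hV z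
  D : ∀ z : Fin 4 → ℕ, (∀ d, z d < S.nc) → (∀ k < S.m, S.v (z 0) k + S.v (z 1) k = 0) →
    (∀ k < S.m, S.v (z 2) k + S.v (z 3) k = 0) → ExtTo S bD tD hD z
  H : ∀ z : Fin 4 → ℕ, (∀ d, z d < S.nc) → ∀ w < S.nc,
    (∀ k < S.m, S.v (z 0) k + S.v (z 1) k = S.v w k) →
    (∀ k < S.m, S.v w k + S.v (z 2) k + S.v (z 3) k = 0) →
    ExtTo S bH tH hH z ∧ ExtTo S bJ tJ hJ z

theorem isFlR_relabel {V V' : Type u} {E E' : Type v} [Fintype V] [Fintype E] [DecidableEq V]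
    [Fintype V'] [Fintype E'] [DecidableEq V'] (G : OrGraph V E) (K : OrGraph V' E') (f : V ≃ V')
    (g : E ≃ E') (φ : E → R) (ψ : E' → R)
    (hs : ∀ e, (ψ (g e) = φ e ∧ K.t (g e) = f (G.t e) ∧
      K.h (g e) = f (G.h e)) ∨ (ψ (g e) = - φ e ∧ K.t (g e) = f (G.h e) ∧ K.h (g e) = f (G.t e)))
    (h : IsFlR G φ) : IsFlR K ψ := by
  have key : ∀ {V : Type u} {E : Type v} [Fintype E] [DecidableEq V] (G : OrGraph V E)
      (φ : E → R), IsFlR G φ ↔
      ∀ v, ∑ e, ((if G.t e = v then φ e else 0) - (if G.h e = v then φ e else 0)) = 0 := by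
    intro V E _ _ G φ
    unfold IsFlR
    refine forall_congr' fun v => ?_
    rw [Finset.sum_sub_distrib, Finset.sum_filter, Finset.sum_filter, sub_eq_zero]
  rw [key] at h ⊢
  intro v'
  refine Eq.trans ?_ (h (f.symm v'))
  rw [← g.sum_comp]
  refine Finset.sum_congr rfl fun e _ => ?_
  have key2 : ∀ v, (f v = v' ↔ v = f.symm v') := fun v => by
    constructor
    · rintro rfl; simp
    · rintro rfl; simp
  rcases hs e with ⟨h1, h2, h3⟩ | ⟨h1, h2, h3⟩
  · rw [h1, h2, h3]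
    simp only [key2]
  · rw [h1, h2, h3]
    simp only [key2]
    split_ifs <;> ring

theorem hasV_relabel {S : VS R} (hS : Ext S) {V V' : Type u} {E E' : Type v} (G : OrGraph V E)
    (K : OrGraph V' E')
    (f : V ≃ V') (g : E ≃ E') (hfg : ∀ e, (K.t (g e) = f (G.t e) ∧ K.h (g e) = f (G.h e)) ∨
        (K.t (g e) = f (G.h e) ∧ K.h (g e) = f (G.t e))) (h : HasV S G) : HasV S K := by
  classical
  obtain ⟨i1, i2, i3, c, hc, hp⟩ := h
  have : Fintype V' := Fintype.ofEquiv V f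
  have : Fintype E' := Fintype.ofEquiv E g
  rw [hasV_iff]
  have : ∀ e, ∃ q < S.nc, ((∀ k < S.m, S.v q k = S.v (c e) k) ∧ K.t (g e) = f (G.t e) ∧
      K.h (g e) = f (G.h e)) ∨ ((∀ k < S.m, S.v q k = - S.v (c e) k) ∧ K.t (g e) = f (G.h e) ∧
      K.h (g e) = f (G.t e)) := by
    intro e
    rcases hfg e with h | h
    · exact ⟨c e, hc e, Or.inl ⟨fun _ _ => rfl, h⟩⟩
    · obtain ⟨q, hq, hq2⟩ := hS.ng (c e) (hc e)
      exact ⟨q, hq, Or.inr ⟨hq2, h⟩⟩
  choose s hs hs2 using this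
  refine ⟨fun e' => s (g.symm e'), fun e' => hs _, fun k hk => ?_⟩
  refine isFlR_relabel G K f g (fun e => S.v (c e) k) _ ?_ (hp k hk)
  intro e
  simp only [Equiv.symm_apply_apply]
  rcases hs2 e with ⟨h1, h2, h3⟩ | ⟨h1, h2, h3⟩
  · exact Or.inl ⟨h1 k hk, h2, h3⟩
  · exact Or.inr ⟨h1 k hk, h2, h3⟩

theorem isFlR_glue {W N Eo D I : Type*} [Fintype W] [Fintype N] [Fintype Eo] [Fintype D]
    [Fintype I] [DecidableEq W] [DecidableEq N]
    (t₀ h₀ : Eo → W) (a : D → W) (b : D → N) (t₁ h₁ : I → N) (φ : Eo ⊕ D ⊕ I → R) :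
    IsFlR (glue t₀ h₀ a b t₁ h₁) φ ↔
      (∀ w, (∑ e with t₀ e = w, φ (Sum.inl e)) + ∑ d with a d = w, φ (Sum.inr (Sum.inl d)) =
        ∑ e with h₀ e = w, φ (Sum.inl e)) ∧
      FitsR b t₁ h₁ (fun d => φ (Sum.inr (Sum.inl d))) (fun i => φ (Sum.inr (Sum.inr i))) := by
  unfold IsFlR FitsR
  rw [Sum.forall]
  have h1 : ∀ w, (∑ e with (glue t₀ h₀ a b t₁ h₁).t e = Sum.inl w, φ e) =
      (∑ e with t₀ e = w, φ (Sum.inl e)) + ∑ d with a d = w, φ (Sum.inr (Sum.inl d)) := by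
    intro w
    rw [Finset.sum_filter, Fintype.sum_sum_type, Fintype.sum_sum_type, Finset.sum_filter,
      Finset.sum_filter]
    simp [glue]
  have h2 : ∀ w, (∑ e with (glue t₀ h₀ a b t₁ h₁).h e = Sum.inl w, φ e) =
      ∑ e with h₀ e = w, φ (Sum.inl e) := by
    intro w
    rw [Finset.sum_filter, Fintype.sum_sum_type, Fintype.sum_sum_type, Finset.sum_filter]
    simp [glue]
  have h3 : ∀ n, (∑ e with (glue t₀ h₀ a b t₁ h₁).t e = Sum.inr n, φ e) =
      ∑ i with t₁ i = n, φ (Sum.inr (Sum.inr i)) := by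
    intro n
    rw [Finset.sum_filter, Fintype.sum_sum_type, Fintype.sum_sum_type, Finset.sum_filter]
    simp [glue]
  have h4 : ∀ n, (∑ e with (glue t₀ h₀ a b t₁ h₁).h e = Sum.inr n, φ e) =
      (∑ d with b d = n, φ (Sum.inr (Sum.inl d))) +
        ∑ i with h₁ i = n, φ (Sum.inr (Sum.inr i)) := by
    intro n
    rw [Finset.sum_filter, Fintype.sum_sum_type, Fintype.sum_sum_type, Finset.sum_filter,
      Finset.sum_filter]
    simp [glue]
  simp only [h1, h2, h3, h4]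

theorem v_glue {S : VS R} {W : Type u} {Eo : Type v} {n k N : ℕ} [Fintype W] [Fintype Eo]
    [DecidableEq W] (t₀ h₀ : Eo → W)
    (a : Fin n → W) (b : Fin n → Fin N) (t₁ h₁ : Fin k → Fin N) (x : Eo → ℕ) (z : Fin n → ℕ)
    (hx : ∀ e, x e < S.nc) (hz : ∀ d, z d < S.nc)
    (o : ∀ l < S.m, ∀ w, (∑ e with t₀ e = w, S.v (x e) l) + ∑ d with a d = w, S.v (z d) l =
      ∑ e with h₀ e = w, S.v (x e) l)
    (hy : ExtTo S b t₁ h₁ z) :
    HasV S (glue t₀ h₀ a b t₁ h₁) := by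
  rw [hasV_iff]
  obtain ⟨y, gok, g⟩ := hy
  refine ⟨Sum.elim x (Sum.elim z y), ?_, ?_⟩
  · rintro (e | d | i)
    · exact hx _
    · exact hz _
    · exact gok i
  · intro l hl
    rw [isFlR_glue]
    exact ⟨o l hl, g l hl⟩

theorem v_of_glue {S : VS R} {W : Type u} {Eo : Type v} {n k N : ℕ} (t₀ h₀ : Eo → W)
    (a : Fin n → W) (b : Fin n → Fin N) (t₁ h₁ : Fin k → Fin N)
    (h : HasV S (glue t₀ h₀ a b t₁ h₁)) :
    ∃ (_ : Fintype W) (_ : Fintype Eo) (_ : DecidableEq W) (x : Eo → ℕ) (z : Fin n → ℕ)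
      (y : Fin k → ℕ),
    (∀ e, x e < S.nc) ∧ (∀ d, z d < S.nc) ∧
    (∀ l < S.m, ∀ w, (∑ e with t₀ e = w, S.v (x e) l) + ∑ d with a d = w, S.v (z d) l =
      ∑ e with h₀ e = w, S.v (x e) l) ∧ (∀ i, y i < S.nc) ∧
    ∀ l < S.m, FitsR b t₁ h₁ (fun d => S.v (z d) l) (fun i => S.v (y i) l) := by
  classical
  obtain ⟨⟨j1⟩, ⟨j2⟩⟩ : Nonempty (Fintype W) ∧ Nonempty (Fintype Eo) := by
    obtain ⟨i1, i2, -, -⟩ := h
    exact ⟨⟨Fintype.ofInjective (Sum.inl : W → W ⊕ Fin N) Sum.inl_injective⟩,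
      ⟨Fintype.ofInjective (Sum.inl : Eo → Eo ⊕ Fin n ⊕ Fin k) Sum.inl_injective⟩⟩
  refine ⟨j1, j2, inferInstance, ?_⟩
  rw [hasV_iff] at h
  obtain ⟨c, hok, hf⟩ := h
  refine ⟨fun e => c (Sum.inl e), fun d => c (Sum.inr (Sum.inl d)),
    fun i => c (Sum.inr (Sum.inr i)), fun e => hok _, fun d => hok _, ?_, fun i => hok _, ?_⟩
  · intro l hl
    exact ((isFlR_glue _ _ _ _ _ _ _).1 (hf l hl)).1
  · intro l hl
    exact ((isFlR_glue _ _ _ _ _ _ _).1 (hf l hl)).2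

theorem isFlR_addEdges {W Eo Q : Type*} [Fintype W] [Fintype Eo] [Fintype Q] [DecidableEq W]
    (t₀ h₀ : Eo → W) (p q : Q → W) (φ : Eo ⊕ Q → R) : IsFlR (addEdges t₀ h₀ p q) φ ↔
      ∀ w, (∑ e with t₀ e = w, φ (Sum.inl e)) + ∑ r with p r = w, φ (Sum.inr r) =
        (∑ e with h₀ e = w, φ (Sum.inl e)) + ∑ r with q r = w, φ (Sum.inr r) := by
  unfold IsFlR
  have h1 : ∀ w, (∑ e with (addEdges t₀ h₀ p q).t e = w, φ e) =
      (∑ e with t₀ e = w, φ (Sum.inl e)) + ∑ r with p r = w, φ (Sum.inr r) := by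
    intro w
    rw [Finset.sum_filter, Fintype.sum_sum_type, Finset.sum_filter, Finset.sum_filter]
    rfl
  have h2 : ∀ w, (∑ e with (addEdges t₀ h₀ p q).h e = w, φ e) =
      (∑ e with h₀ e = w, φ (Sum.inl e)) + ∑ r with q r = w, φ (Sum.inr r) := by
    intro w
    rw [Finset.sum_filter, Fintype.sum_sum_type, Finset.sum_filter, Finset.sum_filter]
    rfl
  simp only [h1, h2]

theorem v_of_addEdges {S : VS R} {W : Type u} {Eo : Type v} {n : ℕ}
    (t₀ h₀ : Eo → W) (p q : Fin n → W) (h : HasV S (addEdges t₀ h₀ p q)) :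
    ∃ (_ : Fintype W) (_ : Fintype Eo) (_ : DecidableEq W) (x : Eo → ℕ) (z : Fin n → ℕ),
    (∀ e, x e < S.nc) ∧ (∀ d, z d < S.nc) ∧
    (∀ l < S.m, ∀ w, (∑ e with t₀ e = w, S.v (x e) l) + ∑ r with p r = w, S.v (z r) l =
      (∑ e with h₀ e = w, S.v (x e) l) + ∑ r with q r = w, S.v (z r) l) := by
  classical
  obtain ⟨⟨i1⟩, ⟨j2⟩⟩ : Nonempty (Fintype W) ∧ Nonempty (Fintype Eo) := by
    obtain ⟨i1, i2, -, -⟩ := h
    exact ⟨⟨i1⟩, ⟨Fintype.ofInjective (Sum.inl : Eo → Eo ⊕ Fin n) Sum.inl_injective⟩⟩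
  refine ⟨i1, j2, inferInstance, ?_⟩
  rw [hasV_iff] at h
  obtain ⟨c, hok, hf⟩ := h
  exact ⟨fun e => c (Sum.inl e), fun d => c (Sum.inr d), fun e => hok _, fun d => hok _,
    fun l hl => (isFlR_addEdges _ _ _ _ _).1 (hf l hl)⟩

theorem ite_neg_zero' (c : Prop) [Decidable c] (x : R) :
    (if c then -x else 0) = -(if c then x else 0) := by
  split_ifs <;> simp

theorem hasV_edge {S : VS R} (hS : Ext S) {W : Type u} {Eo : Type v} (t₀ h₀ : Eo → W)
    (a : Fin 2 → W)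
    (h : HasV S (addEdges t₀ h₀ ![a 0] ![a 1])) : HasV S (glue t₀ h₀ a bE tE hE) := by
  obtain ⟨_, _, _, x, z, hx, hz, o⟩ := v_of_addEdges _ _ _ _ h
  obtain ⟨q, hq, hq2⟩ := hS.ng (z 0) (hz 0)
  have hok : ∀ d, (![z 0, q] : Fin 2 → ℕ) d < S.nc := by
    intro d
    fin_cases d
    · exact hz 0
    · exact hq
  refine v_glue t₀ h₀ a bE tE hE x ![z 0, q] hx hok ?_
    (hS.E _ hok (fun k hk => by simp [hq2 k hk]))
  intro l hl w
  have := o l hl w
  simp only [Finset.sum_filter, Fin.sum_univ_one, Fin.sum_univ_two, Fin.sum_univ_four] at this ⊢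
  simp [hq2 l hl, ite_neg_zero'] at this ⊢
  linear_combination this

theorem hasV_dotLeft {S : VS R} (hS : Ext S) {W : Type u} {Eo : Type v} (t₀ h₀ : Eo → W)
    (a : Fin 4 → W)
    (h : HasV S (addEdges t₀ h₀ ![a 0, a 2] ![a 1, a 3])) :
    HasV S (glue t₀ h₀ a bD tD hD) := by
  obtain ⟨_, _, _, x, z, hx, hz, o⟩ := v_of_addEdges _ _ _ _ h
  obtain ⟨q, hq, hq2⟩ := hS.ng (z 0) (hz 0)
  obtain ⟨r, hr, hr2⟩ := hS.ng (z 1) (hz 1)
  have hok : ∀ d, (![z 0, q, z 1, r] : Fin 4 → ℕ) d < S.nc := by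
    intro d
    fin_cases d
    · exact hz 0
    · exact hq
    · exact hz 1
    · exact hr
  refine v_glue t₀ h₀ a bD tD hD x ![z 0, q, z 1, r] hx hok ?_
    (hS.D _ hok (fun k hk => by simp [hq2 k hk]) (fun k hk => by simp [hr2 k hk]))
  intro l hl w
  have := o l hl w
  simp only [Finset.sum_filter, Fin.sum_univ_one, Fin.sum_univ_two, Fin.sum_univ_four] at this ⊢
  simp only [Matrix.cons_val] at this ⊢
  by_cases c0 : a 0 = w <;> by_cases c1 : a 1 = w <;> by_cases c2 : a 2 = w <;>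
    by_cases c3 : a 3 = w <;> simp [c0, c1, c2, c3, hq2 l hl, hr2 l hl] at this ⊢ <;>
    linear_combination this

theorem hasV_vertex {S : VS R} (hS : Ext S) {W : Type u} {Eo : Type v} (t₀ h₀ : Eo → W)
    (a : Fin 3 → W)
    (h : HasV S (glue t₀ h₀ a (![0, 0, 0] : Fin 3 → Fin 1) (![] : Fin 0 → Fin 1) ![])) :
    HasV S (glue t₀ h₀ a bV tV hV) := by
  obtain ⟨_, _, _, x, z, y, hx, hz, o, -, f⟩ := v_of_glue _ _ _ _ _ _ h
  refine v_glue t₀ h₀ a bV tV hV x z hx hz o (hS.V _ hz ?_)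
  intro l hl
  have s2 := f l hl 0
  simp only [Finset.sum_filter, Fin.sum_univ_succ, Fin.sum_univ_zero] at s2
  simp at s2
  linear_combination -s2

theorem hasV_dotRight {S : VS R} (hS : Ext S) {W : Type u} {Eo : Type v} (t₀ h₀ : Eo → W)
    (a : Fin 4 → W)
    (h : HasV S (glue t₀ h₀ a (![0, 0, 1, 1] : Fin 4 → Fin 2) (![0] : Fin 1 → Fin 2) ![1])) :
    HasV S (glue t₀ h₀ a bH tH hH) ∧ HasV S (glue t₀ h₀ a bJ tJ hJ) := by
  obtain ⟨_, _, _, x, z, y, hx, hz, o, hy, f⟩ := v_of_glue _ _ _ _ _ _ h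
  have key := hS.H z hz (y 0) (hy 0) (fun l hl => by
    have s2 := f l hl 0
    simp only [Finset.sum_filter, Fin.sum_univ_succ, Fin.sum_univ_zero] at s2
    simp at s2
    linear_combination -s2) (fun l hl => by
    have r2 := f l hl 1
    simp only [Finset.sum_filter, Fin.sum_univ_succ, Fin.sum_univ_zero] at r2
    simp at r2
    linear_combination -r2)
  exact ⟨v_glue t₀ h₀ a bH tH hH x z hx hz o key.1, v_glue t₀ h₀ a bJ tJ hJ x z hx hz o key.2⟩

theorem hasV_of_petersenSum {S : VS R} (hS : Ext S) {V V' : Type u} {E E' : Type v}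
    {G : OrGraph V E} {K : OrGraph V' E'} (h : PetersenSum G K) : HasV S G → HasV S K := by
  induction h with
  | relabel G K f g hfg => exact hasV_relabel hS G K f g hfg
  | trans _ _ ih1 ih2 => exact fun h => ih2 (ih1 h)
  | edge t₀ h₀ a => exact hasV_edge hS t₀ h₀ a
  | vertex t₀ h₀ a => exact hasV_vertex hS t₀ h₀ a
  | dotLeft t₀ h₀ a => exact hasV_dotLeft hS t₀ h₀ a
  | dotRight t₀ h₀ a => exact fun h => (hasV_dotRight hS t₀ h₀ a h).1
  | dotRight' t₀ h₀ a => exact fun h => (hasV_dotRight hS t₀ h₀ a h).2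

end Pool.Agent.H23.PS
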