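import Pool.Agent.H23.PS.Frag5

/-!
# Sums with the Petersen graph along cuts with at most five edges
-/

set_option autoImplicit false
set_option linter.unusedVariables false

universe u v

namespace Pool.Agent.H23.PS
open Finset Pool.Agent.H160R2.HF Pool.Agent.H179R3.HF

/-- `PetersenSum5 G K`: the graph `K` arises from the graph `G` by a sequence of sums with the
Petersen graph along cuts with at most five edges.

* `small`: the sums along cuts with at most four edges.
* `starK`, `starL`, `starM`: the vertex of degree three joined to `a 0, a 1, a 2` and the edge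
  `a 3, a 4` are replaced by the Petersen graph minus the vertices `0, 1, 2` of a path (fragment
  `K`) or minus the vertex `0` and the edge `23` (fragments `L`, `M`).
* `pathN`, `pathO`: the path `u₀ u₁ u₂` of vertices of degree three, where `u₀` is joined to
  `a 0, a 1` and `u₁` to `a 2` and `u₂` to `a 3, a 4`, is replaced by the Petersen graph minus the
  vertex `0` and the edge `23`. -/
inductive PetersenSum5 : ∀ {V V' : Type u} {E E' : Type v}, OrGraph V E → OrGraph V' E' → Prop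
  | small {V V' : Type u} {E E' : Type v} {G : OrGraph V E} {K : OrGraph V' E'} :
      PetersenSum G K → PetersenSum5 G K
  | trans {V V' V'' : Type u} {E E' E'' : Type v} {G : OrGraph V E} {K : OrGraph V' E'}
      {L : OrGraph V'' E''} : PetersenSum5 G K → PetersenSum5 K L → PetersenSum5 G L
  | starK {W : Type u} {Eo : Type v} (t₀ h₀ : Eo → W) (a : Fin 5 → W) :
      PetersenSum5 (glue (Sum.elim t₀ (![a 3] : Fin 1 → W)) (Sum.elim h₀ (![a 4] : Fin 1 → W))
          (![a 0, a 1, a 2] : Fin 3 → W) (![0, 0, 0] : Fin 3 → Fin 1) (![] : Fin 0 → Fin 1) ![])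
        (glue t₀ h₀ a bK tK hK)
  | starL {W : Type u} {Eo : Type v} (t₀ h₀ : Eo → W) (a : Fin 5 → W) :
      PetersenSum5 (glue (Sum.elim t₀ (![a 3] : Fin 1 → W)) (Sum.elim h₀ (![a 4] : Fin 1 → W))
          (![a 0, a 1, a 2] : Fin 3 → W) (![0, 0, 0] : Fin 3 → Fin 1) (![] : Fin 0 → Fin 1) ![])
        (glue t₀ h₀ a bL tL hL)
  | starM {W : Type u} {Eo : Type v} (t₀ h₀ : Eo → W) (a : Fin 5 → W) :
      PetersenSum5 (glue (Sum.elim t₀ (![a 3] : Fin 1 → W)) (Sum.elim h₀ (![a 4] : Fin 1 → W))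
          (![a 0, a 1, a 2] : Fin 3 → W) (![0, 0, 0] : Fin 3 → Fin 1) (![] : Fin 0 → Fin 1) ![])
        (glue t₀ h₀ a bM tM hM)
  | pathN {W : Type u} {Eo : Type v} (t₀ h₀ : Eo → W) (a : Fin 5 → W) :
      PetersenSum5 (glue t₀ h₀ a (![0, 0, 1, 2, 2] : Fin 5 → Fin 3) (![0, 1] : Fin 2 → Fin 3)
          ![1, 2])
        (glue t₀ h₀ a bN tN hN)
  | pathO {W : Type u} {Eo : Type v} (t₀ h₀ : Eo → W) (a : Fin 5 → W) :
      PetersenSum5 (glue t₀ h₀ a (![0, 0, 1, 2, 2] : Fin 5 → Fin 3) (![0, 1] : Fin 2 → Fin 3)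
          ![1, 2])
        (glue t₀ h₀ a bO tO hO)

variable {R : Type} [CommRing R]

theorem hasV_star {S : VS R} (hS : Ext5 S) {W : Type u} {Eo : Type v} (t₀ h₀ : Eo → W)
    (a : Fin 5 → W)
    (h : HasV S (glue (Sum.elim t₀ (![a 3] : Fin 1 → W)) (Sum.elim h₀ (![a 4] : Fin 1 → W))
          (![a 0, a 1, a 2] : Fin 3 → W) (![0, 0, 0] : Fin 3 → Fin 1) (![] : Fin 0 → Fin 1) ![])) :
    HasV S (glue t₀ h₀ a bK tK hK) ∧ HasV S (glue t₀ h₀ a bL tL hL) ∧
      HasV S (glue t₀ h₀ a bM tM hM) := by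
  obtain ⟨_, i2, _, x, z, y, hx, hz, o, -, f⟩ := v_of_glue _ _ _ _ _ _ h
  have : Fintype Eo := Fintype.ofInjective (Sum.inl : Eo → Eo ⊕ Fin 1) Sum.inl_injective
  obtain rfl : i2 = instFintypeSum Eo (Fin 1) := Subsingleton.elim _ _
  obtain ⟨q, hq, hq2⟩ := hS.ng (x (Sum.inr 0)) (hx _)
  have hok : ∀ d, (![z 0, z 1, z 2, x (Sum.inr 0), q] : Fin 5 → ℕ) d < S.nc := by
    intro d
    fin_cases d
    · exact hz 0
    · exact hz 1
    · exact hz 2
    · exact hx _
    · exact hq
  have o' : ∀ l < S.m, ∀ w, (∑ e with t₀ e = w, S.v (x (Sum.inl e)) l) +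
      ∑ d with a d = w, S.v ((![z 0, z 1, z 2, x (Sum.inr 0), q] : Fin 5 → ℕ) d) l =
      ∑ e with h₀ e = w, S.v (x (Sum.inl e)) l := by
    intro l hl w
    have := o l hl w
    have e1 : (∑ e with (Sum.elim t₀ (![a 3] : Fin 1 → W)) e = w, S.v (x e) l) =
        (∑ e with t₀ e = w, S.v (x (Sum.inl e)) l) +
          if a 3 = w then S.v (x (Sum.inr 0)) l else 0 := by
      rw [Finset.sum_filter, Fintype.sum_sum_type, Finset.sum_filter, Fin.sum_univ_one]
      rfl
    have e2 : (∑ e with (Sum.elim h₀ (![a 4] : Fin 1 → W)) e = w, S.v (x e) l) =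
        (∑ e with h₀ e = w, S.v (x (Sum.inl e)) l) +
          if a 4 = w then S.v (x (Sum.inr 0)) l else 0 := by
      rw [Finset.sum_filter, Fintype.sum_sum_type, Finset.sum_filter, Fin.sum_univ_one]
      rfl
    rw [e1, e2] at this
    have e3 : ∀ g : Fin 5 → R, ∑ d with a d = w, g d = (if a 0 = w then g 0 else 0) +
        (if a 1 = w then g 1 else 0) + (if a 2 = w then g 2 else 0) +
        (if a 3 = w then g 3 else 0) + (if a 4 = w then g 4 else 0) := by
      intro g
      rw [Finset.sum_filter, Fin.sum_univ_five]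
    have e4 : (∑ d with (![a 0, a 1, a 2] : Fin 3 → W) d = w, S.v (z d) l) =
        (if a 0 = w then S.v (z 0) l else 0) +
        (if a 1 = w then S.v (z 1) l else 0) + (if a 2 = w then S.v (z 2) l else 0) := by
      rw [Finset.sum_filter, Fin.sum_univ_three]
      rfl
    rw [e4] at this
    rw [e3]
    have e5 : (if a 4 = w then S.v ((![z 0, z 1, z 2, x (Sum.inr 0), q] : Fin 5 → ℕ) 4) l else 0)
        = - (if a 4 = w then S.v (x (Sum.inr 0)) l else 0) := by
      rw [← ite_neg_zero', ← hq2 l hl]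
      rfl
    rw [e5]
    change _ + ((if a 0 = w then S.v (z 0) l else 0) + (if a 1 = w then S.v (z 1) l else 0) +
      (if a 2 = w then S.v (z 2) l else 0) + (if a 3 = w then S.v (x (Sum.inr 0)) l else 0) +
      - (if a 4 = w then S.v (x (Sum.inr 0)) l else 0)) = _
    linear_combination this
  have key := hS.star _ hok (fun l hl => by
    have s2 := f l hl 0
    simp only [Finset.sum_filter, Fin.sum_univ_succ, Fin.sum_univ_zero] at s2
    simp at s2
    simp
    linear_combination -s2) (fun l hl => by simp [hq2 l hl])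
  have hx' : ∀ e, (fun e => x (Sum.inl e)) e < S.nc := fun e => hx _
  exact ⟨v_glue t₀ h₀ a bK tK hK (fun e => x (Sum.inl e)) _ hx' hok o' key.1,
    v_glue t₀ h₀ a bL tL hL (fun e => x (Sum.inl e)) _ hx' hok o' key.2.1,
    v_glue t₀ h₀ a bM tM hM (fun e => x (Sum.inl e)) _ hx' hok o' key.2.2⟩

theorem hasV_path {S : VS R} (hS : Ext5 S) {W : Type u} {Eo : Type v} (t₀ h₀ : Eo → W)
    (a : Fin 5 → W)
    (h : HasV S (glue t₀ h₀ a (![0, 0, 1, 2, 2] : Fin 5 → Fin 3) (![0, 1] : Fin 2 → Fin 3)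
          ![1, 2])) :
    HasV S (glue t₀ h₀ a bN tN hN) ∧ HasV S (glue t₀ h₀ a bO tO hO) := by
  obtain ⟨_, _, _, x, z, y, hx, hz, o, hy, f⟩ := v_of_glue _ _ _ _ _ _ h
  have key := hS.path z hz (y 0) (hy 0) (y 1) (hy 1) (fun l hl => by
    have s2 := f l hl 0
    simp only [Finset.sum_filter, Fin.sum_univ_succ, Fin.sum_univ_zero] at s2
    simp at s2
    linear_combination -s2) (fun l hl => by
    have s2 := f l hl 1
    simp only [Finset.sum_filter, Fin.sum_univ_succ, Fin.sum_univ_zero] at s2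
    simp at s2
    linear_combination -s2) (fun l hl => by
    have s2 := f l hl 2
    simp only [Finset.sum_filter, Fin.sum_univ_succ, Fin.sum_univ_zero] at s2
    simp at s2
    linear_combination -s2)
  exact ⟨v_glue t₀ h₀ a bN tN hN x z hx hz o key.1, v_glue t₀ h₀ a bO tO hO x z hx hz o key.2⟩

theorem hasV_of_petersenSum5 {S : VS R} (hS : Ext5 S) {V V' : Type u} {E E' : Type v}
    {G : OrGraph V E} {K : OrGraph V' E'} (h : PetersenSum5 G K) : HasV S G → HasV S K := by
  induction h with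
  | small h => exact hasV_of_petersenSum hS.toExt h
  | trans _ _ ih1 ih2 => exact fun h => ih2 (ih1 h)
  | starK t₀ h₀ a => exact fun h => (hasV_star hS t₀ h₀ a h).1
  | starL t₀ h₀ a => exact fun h => (hasV_star hS t₀ h₀ a h).2.1
  | starM t₀ h₀ a => exact fun h => (hasV_star hS t₀ h₀ a h).2.2
  | pathN t₀ h₀ a => exact fun h => (hasV_path hS t₀ h₀ a h).1
  | pathO t₀ h₀ a => exact fun h => (hasV_path hS t₀ h₀ a h).2

end Pool.Agent.H23.PS
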